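import Mathlib

/-!
Courant-Fischer type statements for the sorted eigenvalues of a real symmetric matrix.
-/

set_option autoImplicit false

namespace Pool.Agent.Lib.MP_b9b22b_co

open Finset Matrix Module

section Abstract

variable {E : Type*} [NormedAddCommGroup E] [InnerProductSpace ℝ E] [FiniteDimensional ℝ E]
  {T : E →ₗ[ℝ] E} {N : ℕ}

theorem inner_expand (hT : T.IsSymmetric) (hn : finrank ℝ E = N) (f : E) :
    inner ℝ (T f) f = ∑ j, hT.eigenvalues hn j * ((hT.eigenvectorBasis hn).repr f j) ^ 2 := by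
  rw [← (hT.eigenvectorBasis hn).repr.inner_map_map]
  simp only [PiLp.inner_apply]
  refine Finset.sum_congr rfl fun j _ => ?_
  rw [hT.eigenvectorBasis_apply_self_apply]
  simp [sq]
  ring

theorem norm_expand (hT : T.IsSymmetric) (hn : finrank ℝ E = N) (f : E) :
    ‖f‖ ^ 2 = ∑ j, ((hT.eigenvectorBasis hn).repr f j) ^ 2 := by
  rw [← (hT.eigenvectorBasis hn).repr.norm_map, EuclideanSpace.real_norm_sq_eq]

theorem repr_eq_zero (hT : T.IsSymmetric) (hn : finrank ℝ E = N) (S : Set (Fin N)) {f : E}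
    (hf : f ∈ Submodule.span ℝ ((hT.eigenvectorBasis hn) '' S)) {j : Fin N} (hj : j ∉ S) :
    (hT.eigenvectorBasis hn).repr f j = 0 := by
  induction hf using Submodule.span_induction with
  | mem x hx =>
    obtain ⟨i, hi, rfl⟩ := hx
    rw [OrthonormalBasis.repr_self]
    have : j ≠ i := fun h => hj (h ▸ hi)
    simp [this]
  | zero => simp
  | add x y _ _ hx hy => simp [hx, hy]
  | smul a x _ hx => simp [hx]

theorem finrank_span_image (hT : T.IsSymmetric) (hn : finrank ℝ E = N) (S : Finset (Fin N)) :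
    finrank ℝ (Submodule.span ℝ ((hT.eigenvectorBasis hn) '' (S : Set (Fin N)))) = S.card := by
  have hli := (hT.eigenvectorBasis hn).orthonormal.linearIndependent
  have h1 : ((hT.eigenvectorBasis hn) '' (S : Set (Fin N))) =
      Set.range (fun i : S => hT.eigenvectorBasis hn i) := by
    ext x; simp
  have h2 := finrank_span_eq_card (hli.comp (fun i : S => (i : Fin N)) Subtype.val_injective)
  rw [h1]
  refine Eq.trans h2 ?_
  simp

theorem form_ge (hT : T.IsSymmetric) (hn : finrank ℝ E = N) (k : Fin N) {f : E}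
    (hf : f ∈ Submodule.span ℝ ((hT.eigenvectorBasis hn) '' {j | j ≤ k})) :
    hT.eigenvalues hn k * ‖f‖ ^ 2 ≤ inner ℝ (T f) f := by
  rw [inner_expand hT hn, norm_expand hT hn, Finset.mul_sum]
  refine Finset.sum_le_sum fun j _ => ?_
  by_cases hj : j ≤ k
  · exact mul_le_mul_of_nonneg_right (hT.eigenvalues_antitone hn hj) (sq_nonneg _)
  · rw [repr_eq_zero hT hn {j | j ≤ k} hf hj]; simp

theorem form_le (hT : T.IsSymmetric) (hn : finrank ℝ E = N) (k : Fin N) {f : E}
    (hf : f ∈ Submodule.span ℝ ((hT.eigenvectorBasis hn) '' {j | k ≤ j})) :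
    inner ℝ (T f) f ≤ hT.eigenvalues hn k * ‖f‖ ^ 2 := by
  rw [inner_expand hT hn, norm_expand hT hn, Finset.mul_sum]
  refine Finset.sum_le_sum fun j _ => ?_
  by_cases hj : k ≤ j
  · exact mul_le_mul_of_nonneg_right (hT.eigenvalues_antitone hn hj) (sq_nonneg _)
  · rw [repr_eq_zero hT hn {j | k ≤ j} hf hj]; simp

theorem finrank_top (hT : T.IsSymmetric) (hn : finrank ℝ E = N) (k : Fin N) :
    finrank ℝ (Submodule.span ℝ ((hT.eigenvectorBasis hn) '' {j | j ≤ k})) = k + 1 := by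
  have := finrank_span_image hT hn (Finset.Iic k)
  rw [Finset.coe_Iic] at this
  rw [show {j | j ≤ k} = Set.Iic k from rfl, this, Fin.card_Iic]

theorem finrank_bottom (hT : T.IsSymmetric) (hn : finrank ℝ E = N) (k : Fin N) :
    finrank ℝ (Submodule.span ℝ ((hT.eigenvectorBasis hn) '' {j | k ≤ j})) = N - k := by
  have := finrank_span_image hT hn (Finset.Ici k)
  rw [Finset.coe_Ici] at this
  rw [show {j | k ≤ j} = Set.Ici k from rfl, this, Fin.card_Ici]

theorem exists_mem_inter {W B : Submodule ℝ E} (h : finrank ℝ E < finrank ℝ W + finrank ℝ B) :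
    ∃ f : E, f ∈ W ∧ f ∈ B ∧ f ≠ 0 := by
  have h1 : W ⊓ B ≠ ⊥ := by
    intro h0
    have h2 := Submodule.finrank_sup_add_finrank_inf_eq W B
    rw [h0, _root_.finrank_bot, add_zero] at h2
    have h3 := Submodule.finrank_le (W ⊔ B)
    omega
  obtain ⟨f, hf, hf0⟩ := Submodule.exists_mem_ne_zero_of_ne_bot h1
  exact ⟨f, hf.1, hf.2, hf0⟩

theorem le_eigenvalue (hT : T.IsSymmetric) (hn : finrank ℝ E = N) (k : Fin N) {c : ℝ}
    (W : Submodule ℝ E) (hW : k + 1 ≤ finrank ℝ W)
    (hf : ∀ f ∈ W, c * ‖f‖ ^ 2 ≤ inner ℝ (T f) f) : c ≤ hT.eigenvalues hn k := by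
  have h1 := finrank_bottom hT hn k
  have hk := k.2
  obtain ⟨f, hfW, hfB, hf0⟩ := exists_mem_inter (W := W)
    (B := Submodule.span ℝ ((hT.eigenvectorBasis hn) '' {j | k ≤ j})) (by omega)
  have h2 := hf f hfW
  have h3 := form_le hT hn k hfB
  have h4 : 0 < ‖f‖ ^ 2 := by positivity
  exact le_of_mul_le_mul_right (h2.trans h3) h4

theorem eigenvalue_le (hT : T.IsSymmetric) (hn : finrank ℝ E = N) (k : Fin N) {c : ℝ}
    (W : Submodule ℝ E) (hW : N - k ≤ finrank ℝ W)
    (hf : ∀ f ∈ W, inner ℝ (T f) f ≤ c * ‖f‖ ^ 2) : hT.eigenvalues hn k ≤ c := by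
  have h1 := finrank_top hT hn k
  have hk := k.2
  obtain ⟨f, hfW, hfB, hf0⟩ := exists_mem_inter (W := W)
    (B := Submodule.span ℝ ((hT.eigenvectorBasis hn) '' {j | j ≤ k})) (by omega)
  have h2 := hf f hfW
  have h3 := form_ge hT hn k hfB
  have h4 : 0 < ‖f‖ ^ 2 := by positivity
  exact le_of_mul_le_mul_right (h3.trans h2) h4

/-- a subspace contains an orthonormal family of every smaller size -/
theorem exists_orthonormal (W : Submodule ℝ E) {m : ℕ} (hm : m ≤ finrank ℝ W) :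
    ∃ b : Fin m → E, Orthonormal ℝ b ∧ ∀ i, b i ∈ W := by
  let b0 := stdOrthonormalBasis ℝ W
  refine ⟨fun i => (b0 (Fin.castLE hm i) : E), ?_, fun i => (b0 _).2⟩
  have h1 : Orthonormal ℝ (fun i => ((b0 i : W) : E)) :=
    b0.orthonormal.comp_linearIsometry W.subtypeₗᵢ
  exact h1.comp _ (Fin.castLE_injective hm)

end Abstract

section Concrete

variable {V : Type*} [Fintype V] [DecidableEq V]

theorem inner_toEuclideanLin (A : Matrix V V ℝ) (f : EuclideanSpace ℝ V) :
    inner ℝ (Matrix.toEuclideanLin A f) f = ∑ x, ∑ y, A x y * (f x * f y) := by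
  rw [PiLp.inner_apply]
  refine Finset.sum_congr rfl fun x _ => ?_
  rw [Matrix.toLpLin_apply]
  simp only [Matrix.mulVec, dotProduct, RCLike.inner_apply, conj_trivial, Finset.mul_sum]
  refine Finset.sum_congr rfl fun y _ => ?_
  ring

/-- top eigenvectors, orthogonal to a given vector `g` -/
theorem exists_top {A : Matrix V V ℝ} (hA : A.IsHermitian) (k : Fin (Fintype.card V))
    (g : V → ℝ) :
    ∃ u : V → Fin (k : ℕ) → ℝ, (∀ i j, ∑ x, u x i * u x j = if i = j then 1 else 0) ∧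
      (∀ i, ∑ x, u x i * g x = 0) ∧
      ∀ c : Fin (k : ℕ) → ℝ, hA.eigenvalues₀ k * ∑ x, (∑ j, c j * u x j) ^ 2 ≤
        ∑ x, ∑ y, A x y * ((∑ j, c j * u x j) * (∑ j, c j * u y j)) := by
  have hT : (Matrix.toEuclideanLin A).IsSymmetric := isSymmetric_toEuclideanLin_iff.mpr hA
  have hn : finrank ℝ (EuclideanSpace ℝ V) = Fintype.card V := finrank_euclideanSpace
  set W := Submodule.span ℝ ((hT.eigenvectorBasis hn) '' {j | j ≤ k}) with hW
  have hWr : finrank ℝ W = k + 1 := finrank_top hT hn k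
  set g' : EuclideanSpace ℝ V := WithLp.toLp 2 g with hg'
  -- the subspace of W orthogonal to g
  have h1 : (k : ℕ) ≤ finrank ℝ (W ⊓ (ℝ ∙ g')ᗮ : Submodule ℝ (EuclideanSpace ℝ V)) := by
    have h2 := Submodule.finrank_sup_add_finrank_inf_eq W (ℝ ∙ g')ᗮ
    have h3 := Submodule.finrank_le (W ⊔ (ℝ ∙ g')ᗮ)
    have h4 := Submodule.finrank_add_finrank_orthogonal (ℝ ∙ g')
    have h5 : finrank ℝ (ℝ ∙ g') ≤ 1 := by
      have := finrank_span_le_card (R := ℝ) ({g'} : Set (EuclideanSpace ℝ V))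
      simpa using this
    omega
  obtain ⟨b, hb, hbW⟩ := exists_orthonormal _ h1
  refine ⟨fun x j => b j x, ?_, ?_, ?_⟩
  · intro i j
    have h2 := orthonormal_iff_ite.1 hb i j
    rw [PiLp.inner_apply] at h2
    rw [← h2]
    refine Finset.sum_congr rfl fun x _ => ?_
    simp [mul_comm]
  · intro i
    have h2 := Submodule.mem_orthogonal_singleton_iff_inner_right.1 (hbW i).2
    rw [PiLp.inner_apply] at h2
    rw [← h2]
    refine Finset.sum_congr rfl fun x _ => ?_
    simp [hg']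
  · intro c
    set f : EuclideanSpace ℝ V := ∑ j, c j • b j with hf
    have hfx : ∀ x, f x = ∑ j, c j * b j x := by
      intro x; simp [hf]
    have hfW : f ∈ W := Submodule.sum_mem _ fun j _ => Submodule.smul_mem _ _ (hbW j).1
    have h2 := form_ge hT hn k hfW
    rw [inner_toEuclideanLin, EuclideanSpace.real_norm_sq_eq] at h2
    simp_rw [hfx] at h2
    exact h2

/-- bottom eigenvectors -/
theorem exists_bottom {A : Matrix V V ℝ} (hA : A.IsHermitian) (k : Fin (Fintype.card V))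
    {m : ℕ} (hm : m + k = Fintype.card V) :
    ∃ u : V → Fin m → ℝ, (∀ i j, ∑ x, u x i * u x j = if i = j then 1 else 0) ∧
      ∀ c : Fin m → ℝ, ∑ x, ∑ y, A x y * ((∑ j, c j * u x j) * (∑ j, c j * u y j)) ≤
        hA.eigenvalues₀ k * ∑ x, (∑ j, c j * u x j) ^ 2 := by
  have hT : (Matrix.toEuclideanLin A).IsSymmetric := isSymmetric_toEuclideanLin_iff.mpr hA
  have hn : finrank ℝ (EuclideanSpace ℝ V) = Fintype.card V := finrank_euclideanSpace
  set W := Submodule.span ℝ ((hT.eigenvectorBasis hn) '' {j | k ≤ j}) with hW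
  have hWr : finrank ℝ W = Fintype.card V - k := finrank_bottom hT hn k
  obtain ⟨b, hb, hbW⟩ := exists_orthonormal W (m := m) (by omega)
  refine ⟨fun x j => b j x, ?_, ?_⟩
  · intro i j
    have h2 := orthonormal_iff_ite.1 hb i j
    rw [PiLp.inner_apply] at h2
    rw [← h2]
    refine Finset.sum_congr rfl fun x _ => ?_
    simp [mul_comm]
  · intro c
    set f : EuclideanSpace ℝ V := ∑ j, c j • b j with hf
    have hfx : ∀ x, f x = ∑ j, c j * b j x := by
      intro x; simp [hf]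
    have hfW : f ∈ W := Submodule.sum_mem _ fun j _ => Submodule.smul_mem _ _ (hbW j)
    have h2 := form_le hT hn k hfW
    rw [inner_toEuclideanLin, EuclideanSpace.real_norm_sq_eq] at h2
    simp_rw [hfx] at h2
    exact h2

omit [Fintype V] [DecidableEq V] in
/-- range of an injective linear map as a submodule of Euclidean space -/
theorem finrank_range_toLp {m : ℕ} (L : (Fin m → ℝ) →ₗ[ℝ] (V → ℝ)) (hL : Function.Injective L) :
    finrank ℝ (LinearMap.range ((WithLp.linearEquiv 2 ℝ (V → ℝ)).symm.toLinearMap ∘ₗ L)) = m := by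
  rw [LinearMap.finrank_range_of_inj]
  · simp
  · exact (WithLp.linearEquiv 2 ℝ (V → ℝ)).symm.injective.comp hL

theorem le_eigenvalues₀ {A : Matrix V V ℝ} (hA : A.IsHermitian) (k : Fin (Fintype.card V))
    {m : ℕ} (hm : k + 1 ≤ m) (L : (Fin m → ℝ) →ₗ[ℝ] (V → ℝ)) (hL : Function.Injective L) {c : ℝ}
    (hform : ∀ a, c * ∑ x, (L a x) ^ 2 ≤ ∑ x, ∑ y, A x y * (L a x * L a y)) :
    c ≤ hA.eigenvalues₀ k := by
  have hT : (Matrix.toEuclideanLin A).IsSymmetric := isSymmetric_toEuclideanLin_iff.mpr hA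
  have hn : finrank ℝ (EuclideanSpace ℝ V) = Fintype.card V := finrank_euclideanSpace
  refine le_eigenvalue hT hn k
    (LinearMap.range ((WithLp.linearEquiv 2 ℝ (V → ℝ)).symm.toLinearMap ∘ₗ L)) ?_ ?_
  · rw [finrank_range_toLp L hL]; exact hm
  · rintro f ⟨a, rfl⟩
    rw [inner_toEuclideanLin, EuclideanSpace.real_norm_sq_eq]
    exact hform a

theorem eigenvalues₀_le {A : Matrix V V ℝ} (hA : A.IsHermitian) (k : Fin (Fintype.card V))
    {m : ℕ} (hm : Fintype.card V - k ≤ m) (L : (Fin m → ℝ) →ₗ[ℝ] (V → ℝ))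
    (hL : Function.Injective L) {c : ℝ}
    (hform : ∀ a, ∑ x, ∑ y, A x y * (L a x * L a y) ≤ c * ∑ x, (L a x) ^ 2) :
    hA.eigenvalues₀ k ≤ c := by
  have hT : (Matrix.toEuclideanLin A).IsSymmetric := isSymmetric_toEuclideanLin_iff.mpr hA
  have hn : finrank ℝ (EuclideanSpace ℝ V) = Fintype.card V := finrank_euclideanSpace
  refine eigenvalue_le hT hn k
    (LinearMap.range ((WithLp.linearEquiv 2 ℝ (V → ℝ)).symm.toLinearMap ∘ₗ L)) ?_ ?_
  · rw [finrank_range_toLp L hL]; exact hm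
  · rintro f ⟨a, rfl⟩
    rw [inner_toEuclideanLin, EuclideanSpace.real_norm_sq_eq]
    exact hform a

end Concrete

end Pool.Agent.Lib.MP_b9b22b_co
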