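import Mathlib

/-!
The `i`-th largest adjacency eigenvalue of a finite simple graph.
-/

set_option autoImplicit false

namespace Pool.Agent.Lib.MP_b9b22b_co

open scoped Classical in
/-- The real adjacency matrix of a graph is symmetric. -/
theorem adj_isHermitian {V : Type*} [Fintype V] (G : SimpleGraph V) :
    (G.adjMatrix ℝ).IsHermitian := by
  ext x y
  simp [Matrix.conjTranspose_apply, SimpleGraph.adjMatrix_apply, G.adj_comm]

open scoped Classical in
/-- `lam G i` is the `i`-th largest eigenvalue of the adjacency matrix of `G`, for
`1 ≤ i ≤ |V|`, eigenvalues being repeated according to multiplicity (the sequence `eigenvalues₀`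
of Mathlib lists them in decreasing order, starting from index `0`). -/
noncomputable def lam {V : Type*} [Fintype V] (G : SimpleGraph V) (i : ℕ) : ℝ :=
  if h : i - 1 < Fintype.card V then (adj_isHermitian G).eigenvalues₀ ⟨i - 1, h⟩ else 0

/-- The set of all values `λ_i(G)`, `G` a graph on `n` vertices. -/
def eigSet (i n : ℕ) : Set ℝ := {x | ∃ G : SimpleGraph (Fin n), lam G i = x}

end Pool.Agent.Lib.MP_b9b22b_co
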