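import Pool.Agent.Lib.MP_b9b22b_co.Spectral
import Pool.Agent.Lib.MP_b9b22b_co.Defs

/-!
The relative bound: eigenvalue bounds which are good for `n` comparable with `i`.
-/

set_option autoImplicit false

namespace Pool.Agent.Lib.MP_b9b22b_co

open Finset Matrix

/-- If a kernel with zero diagonal and entries at most `1/2` in absolute value has quadratic form
at least `μ` on an `m`-dimensional space, then `μ ≤ √((n-1)(n-m)/m) / 2`. -/
theorem rel_core {ι : Type*} [Fintype ι] {m : ℕ} (hm : 1 ≤ m) (K : ι → ι → ℝ)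
    (hK0 : ∀ x, K x x = 0) (hK : ∀ x y, |K x y| ≤ 1 / 2) (u : ι → Fin m → ℝ)
    (hu : ∀ i j, ∑ x, u x i * u x j = if i = j then 1 else 0) (μ : ℝ)
    (hform : ∀ c : Fin m → ℝ, μ * ∑ x, (∑ j, c j * u x j) ^ 2 ≤
      ∑ x, ∑ y, K x y * ((∑ j, c j * u x j) * (∑ j, c j * u y j))) :
    μ ≤ √(((Fintype.card ι : ℝ) - 1) * ((Fintype.card ι : ℝ) - m) / m) / 2 := by
  classical
  by_cases hμ : μ ≤ 0
  · exact hμ.trans (by positivity)
  push Not at hμ
  set n : ℝ := (Fintype.card ι : ℝ) with hn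
  have hm' : (1 : ℝ) ≤ m := by exact_mod_cast hm
  set P : ι → ι → ℝ := fun x y => ∑ j, u x j * u y j with hP
  -- the trace inequality
  have h1 : (m : ℝ) * μ ≤ ∑ x, ∑ y, K x y * P x y := by
    have h2 : ∀ j : Fin m, μ ≤ ∑ x, ∑ y, K x y * (u x j * u y j) := by
      intro j
      have h := hform (Pi.single j 1)
      have e : ∀ x, ∑ k, (Pi.single j (1 : ℝ) : Fin m → ℝ) k * u x k = u x j := by
        intro x
        rw [Finset.sum_eq_single j]
        · simp
        · intro b _ hb; simp [Pi.single_eq_of_ne hb]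
        · simp
      simp_rw [e] at h
      have h3 := hu j j
      rw [if_pos rfl] at h3
      have h4 : ∑ x, u x j ^ 2 = 1 := by
        rw [← h3]; exact Finset.sum_congr rfl fun x _ => by ring
      rw [h4, mul_one] at h
      exact h
    have h5 : (m : ℝ) * μ ≤ ∑ j : Fin m, ∑ x, ∑ y, K x y * (u x j * u y j) := by
      calc (m : ℝ) * μ = ∑ _j : Fin m, μ := by simp
        _ ≤ _ := Finset.sum_le_sum fun j _ => h2 j
    refine h5.trans (le_of_eq ?_)
    rw [Finset.sum_comm]
    refine Finset.sum_congr rfl fun x _ => ?_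
    rw [Finset.sum_comm]
    refine Finset.sum_congr rfl fun y _ => ?_
    rw [← Finset.mul_sum]
  -- the norm of `P`
  have h2 : ∑ x, ∑ y, P x y ^ 2 = m := by
    have e1 : ∀ x y, P x y ^ 2 = ∑ j, ∑ k, (u x j * u x k) * (u y j * u y k) := by
      intro x y
      rw [hP, sq, Finset.sum_mul_sum]
      exact Finset.sum_congr rfl fun j _ => Finset.sum_congr rfl fun k _ => by ring
    have e2 : ∑ x, ∑ y, P x y ^ 2 =
        ∑ j, ∑ k, (∑ x, u x j * u x k) * (∑ y, u y j * u y k) := by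
      simp_rw [e1, Finset.sum_mul_sum]
      rw [Finset.sum_congr rfl fun x _ => Finset.sum_comm]
      rw [Finset.sum_comm]
      refine Finset.sum_congr rfl fun j _ => ?_
      rw [Finset.sum_congr rfl fun x _ => Finset.sum_comm]
      rw [Finset.sum_comm]
    rw [e2]
    simp_rw [hu]
    simp
  have h3 : ∑ x, P x x = m := by
    rw [hP]
    simp only
    rw [Finset.sum_comm]
    simp_rw [hu]
    simp
  -- diagonal and off-diagonal parts
  have h4 : (m : ℝ) ^ 2 ≤ n * ∑ x, P x x ^ 2 := by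
    have h := sq_sum_le_card_mul_sum_sq (s := (Finset.univ : Finset ι)) (f := fun x => P x x)
    rw [h3] at h
    simpa [hn] using h
  set O : Finset (ι × ι) := Finset.univ.filter fun p => p.1 ≠ p.2 with hO
  have hsplit : ∀ F : ι → ι → ℝ, ∑ x, ∑ y, F x y = ∑ x, F x x + ∑ p ∈ O, F p.1 p.2 := by
    intro F
    rw [← Finset.sum_product']
    rw [← Finset.sum_filter_add_sum_filter_not _ (fun p : ι × ι => p.1 = p.2)]
    congr 1
    rw [Finset.sum_filter]
    rw [Finset.sum_product]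
    refine Finset.sum_congr rfl fun x _ => ?_
    simp
  have h5 : ∑ p ∈ O, P p.1 p.2 ^ 2 = m - ∑ x, P x x ^ 2 := by
    have := hsplit fun x y => P x y ^ 2
    rw [h2] at this
    linarith
  have h6 : ∑ x, ∑ y, K x y * P x y = ∑ p ∈ O, K p.1 p.2 * P p.1 p.2 := by
    rw [hsplit fun x y => K x y * P x y]
    simp [hK0]
  have h7 : (∑ p ∈ O, K p.1 p.2 * P p.1 p.2) ^ 2 ≤
      (∑ p ∈ O, K p.1 p.2 ^ 2) * ∑ p ∈ O, P p.1 p.2 ^ 2 :=
    Finset.sum_mul_sq_le_sq_mul_sq _ _ _
  have hOcard : (O.card : ℝ) = n * (n - 1) := by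
    have h := hsplit fun _ _ => 1
    simp only [Finset.sum_const, Finset.card_univ, nsmul_eq_mul, mul_one] at h
    rw [← hn] at h
    linarith
  have h8 : ∑ p ∈ O, K p.1 p.2 ^ 2 ≤ n * (n - 1) / 4 := by
    calc ∑ p ∈ O, K p.1 p.2 ^ 2 ≤ ∑ _p ∈ O, (1 / 4 : ℝ) := by
          refine Finset.sum_le_sum fun p _ => ?_
          have h := hK p.1 p.2
          rw [abs_le] at h
          nlinarith [h.1, h.2]
      _ = n * (n - 1) / 4 := by rw [Finset.sum_const, nsmul_eq_mul, hOcard]; ring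
  have hnpos : 0 < n := by
    rcases (Nat.cast_nonneg (α := ℝ) (Fintype.card ι)).lt_or_eq with h | h
    · exact h
    · exfalso
      rw [← hn] at h
      rw [← h] at h4
      nlinarith
  have h9 : ∑ p ∈ O, P p.1 p.2 ^ 2 ≤ m * (n - m) / n := by
    rw [h5]
    rw [le_div_iff₀ hnpos]
    nlinarith
  have h10 : 0 ≤ ∑ p ∈ O, P p.1 p.2 ^ 2 := Finset.sum_nonneg fun _ _ => sq_nonneg _
  have h11 : 0 ≤ ∑ p ∈ O, K p.1 p.2 ^ 2 := Finset.sum_nonneg fun _ _ => sq_nonneg _
  have h12 : ((m : ℝ) * μ) ^ 2 ≤ (n * (n - 1) / 4) * (m * (n - m) / n) := by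
    have hpos : 0 ≤ (m : ℝ) * μ := by positivity
    calc ((m : ℝ) * μ) ^ 2 ≤ (∑ p ∈ O, K p.1 p.2 * P p.1 p.2) ^ 2 := by
          rw [← h6]
          exact pow_le_pow_left₀ hpos h1 2
      _ ≤ _ := h7
      _ ≤ _ := mul_le_mul h8 h9 h10 (h11.trans h8)
  have h13 : (2 * μ) ^ 2 ≤ (n - 1) * (n - m) / m := by
    rw [le_div_iff₀ (by linarith)]
    have e : (n * (n - 1) / 4) * (m * (n - m) / n) = m * ((n - 1) * (n - m)) / 4 := by
      field_simp
    rw [e] at h12
    have hmp : (0 : ℝ) < m := by linarith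
    nlinarith [h12, hmp]
  have h14 := Real.abs_le_sqrt h13
  rw [abs_of_pos (by linarith)] at h14
  linarith

open scoped Classical in
/-- Relative upper bound for the `i`-th largest eigenvalue. -/
theorem lam_le_rel {V : Type*} [Fintype V] (G : SimpleGraph V) {i : ℕ} (hi : 2 ≤ i)
    (hin : i ≤ Fintype.card V) :
    lam G i ≤ (√(((Fintype.card V : ℝ) - 1) * (Fintype.card V - i + 1) / (i - 1)) - 1) / 2 := by
  have hlt : i - 1 < Fintype.card V := by omega
  unfold lam
  rw [dif_pos hlt]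
  obtain ⟨u, hu, hu0, hform⟩ := exists_top (adj_isHermitian G) ⟨i - 1, hlt⟩ (fun _ => 1)
  simp only [mul_one] at hu0
  have h := rel_core (m := i - 1) (by omega)
    (fun x y => G.adjMatrix ℝ x y + (if x = y then 1 / 2 else 0) - 1 / 2) ?_ ?_
    u hu ((adj_isHermitian G).eigenvalues₀ ⟨i - 1, hlt⟩ + 1 / 2) ?_
  · have e1 : ((i - 1 : ℕ) : ℝ) = (i : ℝ) - 1 := by
      rw [Nat.cast_sub (by omega)]; simp
    rw [e1] at h
    have e2 : (Fintype.card V : ℝ) - i + 1 = Fintype.card V - ((i : ℝ) - 1) := by ring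
    rw [e2]
    linarith
  · intro x; simp
  · intro x y
    simp only [SimpleGraph.adjMatrix_apply]
    by_cases hxy : x = y
    · subst hxy
      simp
    · by_cases hadj : G.Adj x y <;> (simp [hxy, hadj, abs_le]; try norm_num)
  · intro c
    have h1 := hform c
    have hsum : ∑ x, ∑ j, c j * u x j = 0 := by
      rw [Finset.sum_comm]
      simp_rw [← Finset.mul_sum, hu0]
      simp
    set f : V → ℝ := fun x => ∑ j, c j * u x j with hf
    have e1 : ∑ x, ∑ y, (G.adjMatrix ℝ x y + (if x = y then 1 / 2 else 0) - 1 / 2) * (f x * f y) =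
        ∑ x, ∑ y, G.adjMatrix ℝ x y * (f x * f y) + 1 / 2 * ∑ x, f x ^ 2
          - 1 / 2 * (∑ x, f x) ^ 2 := by
      have e2 : ∀ x y, (G.adjMatrix ℝ x y + (if x = y then 1 / 2 else 0) - 1 / 2) * (f x * f y) =
          G.adjMatrix ℝ x y * (f x * f y) + (if x = y then 1 / 2 * (f x * f y) else 0)
            - 1 / 2 * (f x * f y) := by
        intro x y
        split_ifs <;> ring
      simp_rw [e2, Finset.sum_sub_distrib, Finset.sum_add_distrib]
      congr 1
      · congr 1
        rw [Finset.mul_sum]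
        refine Finset.sum_congr rfl fun x _ => ?_
        rw [Finset.sum_ite_eq, if_pos (Finset.mem_univ x), sq]
      · simp_rw [← Finset.mul_sum]
        rw [← Finset.sum_mul, sq]
    have e3 : ∑ x, f x = 0 := hsum
    change (_ + 1 / 2) * ∑ x, f x ^ 2 ≤
      ∑ x, ∑ y, (G.adjMatrix ℝ x y + (if x = y then 1 / 2 else 0) - 1 / 2) * (f x * f y)
    rw [e1, e3]
    change _ * ∑ x, f x ^ 2 ≤ ∑ x, ∑ y, G.adjMatrix ℝ x y * (f x * f y) at h1
    linarith

open scoped Classical in
/-- Relative lower bound for the `i`-th largest eigenvalue. -/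
theorem le_lam_rel {V : Type*} [Fintype V] (G : SimpleGraph V) {i : ℕ} (hi : 1 ≤ i)
    (hin : i ≤ Fintype.card V) :
    -((√(((Fintype.card V : ℝ) - 1) * (i - 1) / (Fintype.card V - i + 1)) + 1) / 2) ≤
      lam G i := by
  have hlt : i - 1 < Fintype.card V := by omega
  unfold lam
  rw [dif_pos hlt]
  obtain ⟨u, hu, hform⟩ := exists_bottom (adj_isHermitian G)
    ⟨i - 1, hlt⟩ (m := Fintype.card V + 1 - i) (by simp; omega)
  have h := rel_core (m := Fintype.card V + 1 - i) (by omega)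
    (fun x y => 1 / 2 - G.adjMatrix ℝ x y - (if x = y then 1 / 2 else 0)) ?_ ?_
    u hu (-(adj_isHermitian G).eigenvalues₀ ⟨i - 1, hlt⟩ - 1 / 2) ?_
  · have e1 : ((Fintype.card V + 1 - i : ℕ) : ℝ) = (Fintype.card V : ℝ) - i + 1 := by
      rw [Nat.cast_sub (by omega)]; push_cast; ring
    rw [e1] at h
    have e2 : (Fintype.card V : ℝ) - (Fintype.card V - i + 1) = (i : ℝ) - 1 := by ring
    rw [e2] at h
    linarith
  · intro x; simp
  · intro x y
    simp only [SimpleGraph.adjMatrix_apply]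
    by_cases hxy : x = y
    · subst hxy
      simp
    · by_cases hadj : G.Adj x y <;> (simp [hxy, hadj, abs_le]; try norm_num)
  · intro c
    have h1 := hform c
    set f : V → ℝ := fun x => ∑ j, c j * u x j with hf
    have e1 : ∑ x, ∑ y, (1 / 2 - G.adjMatrix ℝ x y - (if x = y then 1 / 2 else 0)) * (f x * f y) =
        1 / 2 * (∑ x, f x) ^ 2 - ∑ x, ∑ y, G.adjMatrix ℝ x y * (f x * f y)
          - 1 / 2 * ∑ x, f x ^ 2 := by
      have e2 : ∀ x y, (1 / 2 - G.adjMatrix ℝ x y - (if x = y then 1 / 2 else 0)) * (f x * f y) =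
          1 / 2 * (f x * f y) - G.adjMatrix ℝ x y * (f x * f y)
            - (if x = y then 1 / 2 * (f x * f y) else 0) := by
        intro x y
        split_ifs <;> ring
      simp_rw [e2, Finset.sum_sub_distrib]
      congr 1
      · congr 1
        simp_rw [← Finset.mul_sum]
        rw [← Finset.sum_mul, sq]
      · rw [Finset.mul_sum]
        refine Finset.sum_congr rfl fun x _ => ?_
        rw [Finset.sum_ite_eq, if_pos (Finset.mem_univ x), sq]
    change (-_ - 1 / 2) * ∑ x, f x ^ 2 ≤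
      ∑ x, ∑ y, (1 / 2 - G.adjMatrix ℝ x y - (if x = y then 1 / 2 else 0)) * (f x * f y)
    rw [e1]
    change ∑ x, ∑ y, G.adjMatrix ℝ x y * (f x * f y) ≤ _ * ∑ x, f x ^ 2 at h1
    have := sq_nonneg (∑ x, f x)
    linarith

end Pool.Agent.Lib.MP_b9b22b_co
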