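import Pool.Agent.Lib.MP_b9b22b_co.Spectral
import Pool.Agent.Lib.MP_b9b22b_co.Defs

/-!
Blow-ups: every vertex of a pattern is replaced by `k` copies.
-/

set_option autoImplicit false

namespace Pool.Agent.Lib.MP_b9b22b_co

open Finset Matrix

variable {U V : Type*} [Fintype U] [Fintype V]

/-- The blow-up of a symmetric relation: distinct vertices are adjacent when their images are
related. -/
def blow (R : U → U → Prop) (hR : ∀ u w, R u w → R w u) {k : ℕ} (e : V ≃ U × Fin k) :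
    SimpleGraph V where
  Adj p q := p ≠ q ∧ R (e p).1 (e q).1
  symm := ⟨fun _ _ h => ⟨h.1.symm, hR _ _ h.2⟩⟩
  loopless := ⟨fun _ h => h.1 rfl⟩

theorem sum_blow {k : ℕ} (e : V ≃ U × Fin k) (g : U → ℝ) :
    ∑ p, g (e p).1 = k * ∑ u, g u := by
  rw [Equiv.sum_comp e (fun q : U × Fin k => g q.1), Fintype.sum_prod_type]
  simp [Finset.mul_sum]

theorem sum_blow2 {k : ℕ} (e : V ≃ U × Fin k) (g : U → U → ℝ) :
    ∑ p, ∑ q, g (e p).1 (e q).1 = (k : ℝ) ^ 2 * ∑ u, ∑ w, g u w := by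
  have h : ∀ p, ∑ q, g (e p).1 (e q).1 = k * ∑ w, g (e p).1 w := fun p => sum_blow e _
  simp_rw [h]
  rw [sum_blow e (fun u => k * ∑ w, g u w), ← Finset.mul_sum]
  ring

/-- composition of a linear map with the projection to the pattern -/
def liftMap {i k : ℕ} (e : V ≃ U × Fin k) (L : (Fin i → ℝ) →ₗ[ℝ] (U → ℝ)) :
    (Fin i → ℝ) →ₗ[ℝ] (V → ℝ) :=
  (LinearMap.funLeft ℝ ℝ (fun p => (e p).1)) ∘ₗ L

omit [Fintype U] [Fintype V] in
theorem liftMap_apply {i k : ℕ} (e : V ≃ U × Fin k) (L : (Fin i → ℝ) →ₗ[ℝ] (U → ℝ))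
    (a : Fin i → ℝ) (p : V) : liftMap e L a p = L a (e p).1 := rfl

omit [Fintype U] [Fintype V] in
theorem liftMap_injective {i k : ℕ} (hk : 1 ≤ k) (e : V ≃ U × Fin k)
    {L : (Fin i → ℝ) →ₗ[ℝ] (U → ℝ)} (hL : Function.Injective L) :
    Function.Injective (liftMap e L) := by
  intro a b hab
  apply hL
  funext u
  have := congrFun hab (e.symm (u, ⟨0, hk⟩))
  rw [liftMap_apply, liftMap_apply, Equiv.apply_symm_apply] at this
  exact this

open scoped Classical in
/-- closed blow-up, lower bound for `λ_i` -/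
theorem le_lam_closed (R : U → U → Prop) [DecidableRel R] (hR : ∀ u w, R u w → R w u) (hrefl : ∀ u, R u u)
    {k i : ℕ} (hk : 1 ≤ k) (hi : 1 ≤ i) (e : V ≃ U × Fin k)
    (L : (Fin i → ℝ) →ₗ[ℝ] (U → ℝ)) (hL : Function.Injective L) (c : ℝ)
    (hform : ∀ a, c * ∑ u, (L a u) ^ 2 ≤ ∑ u, ∑ w, (if R u w then L a u * L a w else 0))
    (hcard : i ≤ Fintype.card V) :
    c * k - 1 ≤ lam (blow R hR e) i := by
  have hlt : i - 1 < Fintype.card V := by omega
  unfold lam
  rw [dif_pos hlt]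
  refine le_eigenvalues₀ (adj_isHermitian (blow R hR e)) ⟨i - 1, hlt⟩ (m := i) (by simp; omega)
    (liftMap e L) (liftMap_injective hk e hL) ?_
  intro a
  have h1 := hform a
  have e0 : ∀ p q, (blow R hR e).adjMatrix ℝ p q * (liftMap e L a p * liftMap e L a q) =
      (if R (e p).1 (e q).1 then L a (e p).1 * L a (e q).1 else 0) -
        (if p = q then L a (e p).1 * L a (e q).1 else 0) := by
    intro p q
    rw [SimpleGraph.adjMatrix_apply, liftMap_apply, liftMap_apply]
    by_cases hpq : p = q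
    · subst hpq
      simp [hrefl]
    · have : (blow R hR e).Adj p q ↔ R (e p).1 (e q).1 := ⟨fun h => h.2, fun h => ⟨hpq, h⟩⟩
      by_cases hr : R (e p).1 (e q).1
      · rw [if_pos (this.2 hr), if_pos hr, if_neg hpq]; ring
      · rw [if_neg (fun h => hr (this.1 h)), if_neg hr, if_neg hpq]; ring
  simp_rw [e0, Finset.sum_sub_distrib, liftMap_apply]
  rw [sum_blow2 e (fun u w => if R u w then L a u * L a w else 0)]
  have e1 : ∀ p, ∑ q, (if p = q then L a (e p).1 * L a (e q).1 else 0) = L a (e p).1 ^ 2 := by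
    intro p
    rw [Finset.sum_ite_eq, if_pos (Finset.mem_univ p), sq]
  simp_rw [e1]
  rw [sum_blow e (fun u => L a u ^ 2)]
  have h2 := mul_le_mul_of_nonneg_left h1 (sq_nonneg (k : ℝ))
  linarith

open scoped Classical in
/-- open blow-up, upper bound for the `j`-th smallest eigenvalue -/
theorem lam_le_open (R : U → U → Prop) [DecidableRel R] (hR : ∀ u w, R u w → R w u) (hirr : ∀ u, ¬ R u u)
    {k j : ℕ} (hk : 1 ≤ k) (hj : 1 ≤ j) (e : V ≃ U × Fin k)
    (L : (Fin j → ℝ) →ₗ[ℝ] (U → ℝ)) (hL : Function.Injective L) (c : ℝ)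
    (hform : ∀ a, ∑ u, ∑ w, (if R u w then L a u * L a w else 0) ≤ -c * ∑ u, (L a u) ^ 2)
    (hcard : j ≤ Fintype.card V) :
    lam (blow R hR e) (Fintype.card V + 1 - j) ≤ -(c * k) := by
  have hlt : Fintype.card V + 1 - j - 1 < Fintype.card V := by omega
  unfold lam
  rw [dif_pos hlt]
  refine eigenvalues₀_le (adj_isHermitian (blow R hR e)) ⟨Fintype.card V + 1 - j - 1, hlt⟩
    (m := j) (by simp; omega) (liftMap e L) (liftMap_injective hk e hL) ?_
  intro a
  have h1 := hform a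
  have e0 : ∀ p q, (blow R hR e).adjMatrix ℝ p q * (liftMap e L a p * liftMap e L a q) =
      (if R (e p).1 (e q).1 then L a (e p).1 * L a (e q).1 else 0) := by
    intro p q
    rw [SimpleGraph.adjMatrix_apply, liftMap_apply, liftMap_apply]
    have : (blow R hR e).Adj p q ↔ R (e p).1 (e q).1 :=
      ⟨fun h => h.2, fun h => ⟨fun hpq => hirr _ (hpq ▸ h), h⟩⟩
    by_cases hr : R (e p).1 (e q).1
    · rw [if_pos (this.2 hr), if_pos hr]; ring
    · rw [if_neg (fun h => hr (this.1 h)), if_neg hr]; ring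
  simp_rw [e0, liftMap_apply]
  rw [sum_blow2 e (fun u w => if R u w then L a u * L a w else 0), sum_blow e (fun u => L a u ^ 2)]
  have h2 := mul_le_mul_of_nonneg_left h1 (sq_nonneg (k : ℝ))
  linarith

end Pool.Agent.Lib.MP_b9b22b_co
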