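import Pool.Agent.Lib.MP_b9b22b_co.Core
import Pool.Agent.Lib.MP_b9b22b_co.Spectral
import Pool.Agent.Lib.MP_b9b22b_co.Defs

/-!
Upper and lower bounds for the `i`-th largest adjacency eigenvalue.
-/

set_option autoImplicit false

namespace Pool.Agent.Lib.MP_b9b22b_co

open Finset Matrix

theorem kap_upper {i : ℕ} (hi : 2 ≤ i) :
    kap (i - 1) / 2 = (2 + ((i : ℝ) - 2) * √((i : ℝ) + 1)) / (2 * i * (i - 1)) := by
  obtain ⟨m, rfl⟩ : ∃ m, i = m + 1 := ⟨i - 1, by omega⟩
  have hm : 1 ≤ m := by omega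
  have hm' : (1 : ℝ) ≤ m := by exact_mod_cast hm
  unfold kap
  rw [Nat.add_sub_cancel]
  push_cast
  have h1 : (m : ℝ) + 1 + 1 = m + 2 := by ring
  rw [h1]
  have h2 : (m : ℝ) ≠ 0 := by positivity
  have h3 : (m : ℝ) + 1 - 1 ≠ 0 := by rw [add_sub_cancel_right]; exact h2
  have h4 : (m : ℝ) + 1 ≠ 0 := by positivity
  rw [add_sub_cancel_right]
  field_simp
  ring

theorem kap_lower {m : ℕ} (hm : 1 ≤ m) :
    kap m / 2 = (2 + ((m : ℝ) - 1) * √((m : ℝ) + 2)) / (2 * m * (m + 1)) := by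
  have hm' : (1 : ℝ) ≤ m := by exact_mod_cast hm
  unfold kap
  have h2 : (m : ℝ) ≠ 0 := by positivity
  have h4 : (m : ℝ) + 1 ≠ 0 := by positivity
  field_simp

open scoped Classical in
/-- Upper bound for the `i`-th largest eigenvalue. -/
theorem lam_le {V : Type*} [Fintype V] (G : SimpleGraph V) {i : ℕ} (hi : 2 ≤ i)
    (hin : i ≤ Fintype.card V) :
    lam G i ≤ (2 + ((i : ℝ) - 2) * √((i : ℝ) + 1)) / (2 * i * (i - 1)) * Fintype.card V - 1 := by
  have hlt : i - 1 < Fintype.card V := by omega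
  unfold lam
  rw [dif_pos hlt, ← kap_upper hi]
  obtain ⟨u, hu, hu0, hform⟩ := exists_top (adj_isHermitian G) ⟨i - 1, hlt⟩ (fun _ => 1)
  simp only [mul_one] at hu0
  have h := core (by simp; omega) (fun x y => G.adjMatrix ℝ x y + (if x = y then 1 else 0) - 1 / 2) ?_
    u hu ((adj_isHermitian G).eigenvalues₀ ⟨i - 1, hlt⟩ + 1) ?_
  · simp only at h
    linarith
  · intro x y
    rw [SimpleGraph.adjMatrix_apply]
    by_cases hxy : x = y
    · subst hxy
      simp
      norm_num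
    · by_cases hadj : G.Adj x y <;> (simp [hxy, hadj, abs_le]; try norm_num)
  · intro c
    have h1 := hform c
    have hsum : ∑ x, ∑ j, c j * u x j = 0 := by
      rw [Finset.sum_comm]
      simp_rw [← Finset.mul_sum, hu0]
      simp
    set f : V → ℝ := fun x => ∑ j, c j * u x j with hf
    have e1 : ∑ x, ∑ y, (G.adjMatrix ℝ x y + (if x = y then 1 else 0) - 1 / 2) * (f x * f y) =
        ∑ x, ∑ y, G.adjMatrix ℝ x y * (f x * f y) + ∑ x, f x ^ 2 - 1 / 2 * (∑ x, f x) ^ 2 := by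
      have e2 : ∀ x y, (G.adjMatrix ℝ x y + (if x = y then 1 else 0) - 1 / 2) * (f x * f y) =
          G.adjMatrix ℝ x y * (f x * f y) + (if x = y then f x * f y else 0)
            - 1 / 2 * (f x * f y) := by
        intro x y
        split_ifs <;> ring
      simp_rw [e2, Finset.sum_sub_distrib, Finset.sum_add_distrib]
      congr 1
      · congr 1
        refine Finset.sum_congr rfl fun x _ => ?_
        rw [Finset.sum_ite_eq, if_pos (Finset.mem_univ x), sq]
      · simp_rw [← Finset.mul_sum]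
        rw [← Finset.sum_mul, sq]
    have e3 : ∑ x, f x = 0 := hsum
    change (_ + 1) * ∑ x, f x ^ 2 ≤
      ∑ x, ∑ y, (G.adjMatrix ℝ x y + (if x = y then 1 else 0) - 1 / 2) * (f x * f y)
    rw [e1, e3]
    change _ * ∑ x, f x ^ 2 ≤ ∑ x, ∑ y, G.adjMatrix ℝ x y * (f x * f y) at h1
    linarith

open scoped Classical in
/-- Lower bound for the `j`-th smallest eigenvalue. -/
theorem le_lam {V : Type*} [Fintype V] (G : SimpleGraph V) {j : ℕ} (hj : 1 ≤ j)
    (hjn : j ≤ Fintype.card V) :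
    -((2 + ((j : ℝ) - 1) * √((j : ℝ) + 2)) / (2 * j * (j + 1)) * Fintype.card V) ≤
      lam G (Fintype.card V + 1 - j) := by
  have hlt : Fintype.card V + 1 - j - 1 < Fintype.card V := by omega
  unfold lam
  rw [dif_pos hlt, ← kap_lower hj]
  obtain ⟨u, hu, hform⟩ := exists_bottom (adj_isHermitian G)
    ⟨Fintype.card V + 1 - j - 1, hlt⟩ (m := j) (by simp; omega)
  have h := core hj (fun x y => 1 / 2 - G.adjMatrix ℝ x y) ?_
    u hu (-(adj_isHermitian G).eigenvalues₀ ⟨Fintype.card V + 1 - j - 1, hlt⟩) ?_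
  · linarith
  · intro x y
    rw [SimpleGraph.adjMatrix_apply]
    by_cases hadj : G.Adj x y <;> (simp [hadj, abs_le]; try norm_num)
  · intro c
    have h1 := hform c
    set f : V → ℝ := fun x => ∑ j, c j * u x j with hf
    have e1 : ∑ x, ∑ y, (1 / 2 - G.adjMatrix ℝ x y) * (f x * f y) =
        1 / 2 * (∑ x, f x) ^ 2 - ∑ x, ∑ y, G.adjMatrix ℝ x y * (f x * f y) := by
      have e2 : ∀ x y, (1 / 2 - G.adjMatrix ℝ x y) * (f x * f y) =
          1 / 2 * (f x * f y) - G.adjMatrix ℝ x y * (f x * f y) := by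
        intro x y; ring
      simp_rw [e2, Finset.sum_sub_distrib]
      congr 1
      simp_rw [← Finset.mul_sum]
      rw [← Finset.sum_mul, sq]
    change (-_) * ∑ x, f x ^ 2 ≤ ∑ x, ∑ y, (1 / 2 - G.adjMatrix ℝ x y) * (f x * f y)
    rw [e1]
    change ∑ x, ∑ y, G.adjMatrix ℝ x y * (f x * f y) ≤ _ * ∑ x, f x ^ 2 at h1
    have := sq_nonneg (∑ x, f x)
    linarith

end Pool.Agent.Lib.MP_b9b22b_co
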