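import Mathlib

/-!
Balanced position: for finitely many vectors `u_x` of `ℝ^m` with `∑ u_x u_xᵀ = 1` there is a matrix
`T` of determinant one such that `∑ (T u_x)(T u_x)ᵀ / |T u_x|` is a multiple of the identity.
-/

set_option autoImplicit false

namespace Pool.Agent.Lib.MP_b9b22b_co

open Finset Matrix

variable {ι : Type*} [Fintype ι] {m : ℕ}

/-- Euclidean norm of a vector -/
noncomputable def nrm (v : Fin m → ℝ) : ℝ := √(∑ i, v i ^ 2)

theorem nrm_nonneg (v : Fin m → ℝ) : 0 ≤ nrm v := Real.sqrt_nonneg _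

theorem nrm_sq (v : Fin m → ℝ) : nrm v ^ 2 = ∑ i, v i ^ 2 :=
  Real.sq_sqrt (Finset.sum_nonneg fun _ _ => sq_nonneg _)

theorem nrm_eq_zero {v : Fin m → ℝ} (h : nrm v = 0) : v = 0 := by
  have h2 := nrm_sq v
  rw [h, zero_pow two_ne_zero] at h2
  funext i
  have := (Finset.sum_eq_zero_iff_of_nonneg (fun i _ => sq_nonneg (v i))).1 h2.symm i
    (Finset.mem_univ i)
  simpa using this

/-- `√(a^2 + b) ≤ a + b / (2 a)` -/
theorem sqrt_le_tangent {a b : ℝ} (ha : 0 < a) (hb : 0 ≤ a ^ 2 + b) :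
    √(a ^ 2 + b) ≤ a + b / (2 * a) := by
  have h1 : a ^ 2 + b ≤ (a + b / (2 * a)) ^ 2 := by
    have : (a + b / (2 * a)) ^ 2 = a ^ 2 + b + (b / (2 * a)) ^ 2 := by
      field_simp; ring
    rw [this]
    have := sq_nonneg (b / (2 * a))
    linarith
  have h2 : 0 ≤ a + b / (2 * a) := by
    have : a + b / (2 * a) = (2 * a ^ 2 + b) / (2 * a) := by field_simp
    rw [this]
    have : 0 ≤ a ^ 2 := sq_nonneg a
    apply div_nonneg <;> linarith
  calc √(a ^ 2 + b) ≤ √((a + b / (2 * a)) ^ 2) := Real.sqrt_le_sqrt h1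
    _ = a + b / (2 * a) := Real.sqrt_sq h2

theorem nrm_le_tangent {v w : Fin m → ℝ} (hv : v ≠ 0) :
    nrm w ≤ nrm v + (∑ i, w i ^ 2 - ∑ i, v i ^ 2) / (2 * nrm v) := by
  have h0 : 0 < nrm v := lt_of_le_of_ne (nrm_nonneg v) fun h => hv (nrm_eq_zero h.symm)
  have h1 : ∑ i, w i ^ 2 = nrm v ^ 2 + (∑ i, w i ^ 2 - ∑ i, v i ^ 2) := by rw [nrm_sq]; ring
  have h2 : 0 ≤ nrm v ^ 2 + (∑ i, w i ^ 2 - ∑ i, v i ^ 2) := by
    rw [← h1]; exact Finset.sum_nonneg fun i _ => sq_nonneg _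
  have := sqrt_le_tangent h0 h2
  rw [← h1] at this
  exact this

/-- the functional `∑ |T u_x|` -/
noncomputable def Phi (u : ι → Fin m → ℝ) (T : Matrix (Fin m) (Fin m) ℝ) : ℝ :=
  ∑ x, nrm (T *ᵥ u x)

theorem Phi_nonneg (u : ι → Fin m → ℝ) (T : Matrix (Fin m) (Fin m) ℝ) : 0 ≤ Phi u T :=
  Finset.sum_nonneg fun _ _ => nrm_nonneg _

theorem continuous_Phi (u : ι → Fin m → ℝ) : Continuous (Phi u) := by
  unfold Phi nrm
  refine continuous_finsetSum _ fun x _ => Real.continuous_sqrt.comp ?_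
  refine continuous_finsetSum _ fun i _ => ?_
  refine Continuous.pow ?_ 2
  simp only [Matrix.mulVec, dotProduct]
  refine continuous_finsetSum _ fun j _ => ?_
  exact (continuous_id.matrix_elem i j).mul continuous_const

/-- coercivity -/
theorem abs_le_Phi {u : ι → Fin m → ℝ}
    (hu : ∀ i j, ∑ x, u x i * u x j = if i = j then 1 else 0)
    (T : Matrix (Fin m) (Fin m) ℝ) (i j : Fin m) : |T i j| ≤ Phi u T := by
  have h1 : ∑ x, nrm (T *ᵥ u x) ^ 2 = ∑ i, ∑ j, T i j ^ 2 := by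
    simp_rw [nrm_sq]
    rw [Finset.sum_comm]
    refine Finset.sum_congr rfl fun i _ => ?_
    have e : ∀ x, (T *ᵥ u x) i ^ 2 = ∑ j, ∑ k, T i j * T i k * (u x j * u x k) := by
      intro x
      simp only [Matrix.mulVec, dotProduct]
      rw [sq, Finset.sum_mul_sum]
      refine Finset.sum_congr rfl fun j _ => Finset.sum_congr rfl fun k _ => ?_
      ring
    simp_rw [e]
    rw [Finset.sum_comm]
    refine Finset.sum_congr rfl fun j _ => ?_
    rw [Finset.sum_comm]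
    simp_rw [← Finset.mul_sum, hu]
    simp [sq]
  have h2 : T i j ^ 2 ≤ ∑ i, ∑ j, T i j ^ 2 := by
    calc T i j ^ 2 ≤ ∑ j, T i j ^ 2 :=
          Finset.single_le_sum (f := fun j => T i j ^ 2) (fun j _ => sq_nonneg _) (Finset.mem_univ j)
      _ ≤ ∑ i, ∑ j, T i j ^ 2 :=
          Finset.single_le_sum (f := fun i => ∑ j, T i j ^ 2)
            (fun i _ => Finset.sum_nonneg fun j _ => sq_nonneg _) (Finset.mem_univ i)
  have h3 : ∑ x, nrm (T *ᵥ u x) ^ 2 ≤ Phi u T ^ 2 := by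
    unfold Phi
    exact Finset.sum_sq_le_sq_sum_of_nonneg fun x _ => nrm_nonneg _
  refine abs_le_of_sq_le_sq ?_ (Phi_nonneg u T)
  linarith

theorem exists_min {u : ι → Fin m → ℝ}
    (hu : ∀ i j, ∑ x, u x i * u x j = if i = j then 1 else 0) :
    ∃ T : Matrix (Fin m) (Fin m) ℝ, T.det = 1 ∧
      ∀ T' : Matrix (Fin m) (Fin m) ℝ, T'.det = 1 → Phi u T ≤ Phi u T' := by
  set c := Phi u 1 with hc
  set B : Set (Matrix (Fin m) (Fin m) ℝ) := {T | ∀ i j, T i j ∈ Set.Icc (-c) c} with hB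
  have hBc : IsCompact B := by
    have : B = Set.pi Set.univ fun _ => Set.pi Set.univ fun _ => Set.Icc (-c) c := by
      ext T
      exact ⟨fun h i _ j _ => h i j, fun h i j => h i (Set.mem_univ _) j (Set.mem_univ _)⟩
    rw [this]
    exact isCompact_univ_pi fun _ => isCompact_univ_pi fun _ => isCompact_Icc
  have hcl : IsClosed {T : Matrix (Fin m) (Fin m) ℝ | T.det = 1} :=
    isClosed_eq (continuous_id.matrix_det) continuous_const
  have hK : IsCompact (B ∩ {T : Matrix (Fin m) (Fin m) ℝ | T.det = 1}) := hBc.inter_right hcl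
  have h1 : (1 : Matrix (Fin m) (Fin m) ℝ) ∈ B ∩ {T | T.det = 1} := by
    refine ⟨fun i j => ?_, Matrix.det_one⟩
    have := abs_le_Phi hu 1 i j
    exact abs_le.1 this
  obtain ⟨T, hT, hmin⟩ := hK.exists_isMinOn ⟨_, h1⟩ (continuous_Phi u).continuousOn
  refine ⟨T, hT.2, fun T' hT' => ?_⟩
  by_cases hmem : T' ∈ B
  · exact hmin ⟨hmem, hT'⟩
  · have hT1 : Phi u T ≤ c := hmin h1
    simp only [hB, Set.mem_ofPred_eq, not_forall] at hmem
    obtain ⟨i, j, hij⟩ := hmem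
    have h2 := abs_le_Phi hu T' i j
    by_contra hlt
    push Not at hlt
    apply hij
    rw [Set.mem_Icc, ← abs_le]
    linarith

theorem mulVec_ne_zero {T : Matrix (Fin m) (Fin m) ℝ} (hT : T.det = 1) {u : Fin m → ℝ}
    (h : u ≠ 0) : T *ᵥ u ≠ 0 := by
  intro h0
  apply h
  have : IsUnit T.det := by rw [hT]; exact isUnit_one
  exact Matrix.eq_zero_of_mulVec_eq_zero (by rw [hT]; exact one_ne_zero) h0

/-- variation inequality -/
theorem variation {u : ι → Fin m → ℝ} {T : Matrix (Fin m) (Fin m) ℝ}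
    (hmin : ∀ T' : Matrix (Fin m) (Fin m) ℝ, T'.det = 1 → Phi u T ≤ Phi u T')
    (hT : T.det = 1)
    (D : Matrix (Fin m) (Fin m) ℝ) (hD : D.det = 1) :
    0 ≤ ∑ x, (∑ i, (D *ᵥ (T *ᵥ u x)) i ^ 2 - ∑ i, (T *ᵥ u x) i ^ 2) / nrm (T *ᵥ u x) := by
  have h1 := hmin (D * T) (by rw [Matrix.det_mul, hD, hT, one_mul])
  have h2 : Phi u (D * T) ≤ Phi u T +
      ∑ x, (∑ i, (D *ᵥ (T *ᵥ u x)) i ^ 2 - ∑ i, (T *ᵥ u x) i ^ 2) / (2 * nrm (T *ᵥ u x)) := by
    unfold Phi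
    rw [← Finset.sum_add_distrib]
    refine Finset.sum_le_sum fun x _ => ?_
    rw [← Matrix.mulVec_mulVec]
    by_cases h : T *ᵥ u x = 0
    · rw [h]; simp [nrm]
    · exact nrm_le_tangent h
  have h3 : ∑ x, (∑ i, (D *ᵥ (T *ᵥ u x)) i ^ 2 - ∑ i, (T *ᵥ u x) i ^ 2) / nrm (T *ᵥ u x) =
      2 * ∑ x, (∑ i, (D *ᵥ (T *ᵥ u x)) i ^ 2 - ∑ i, (T *ᵥ u x) i ^ 2) / (2 * nrm (T *ᵥ u x)) := by
    rw [Finset.mul_sum]
    refine Finset.sum_congr rfl fun x _ => ?_
    rw [← mul_div_assoc, mul_div_mul_left _ _ two_ne_zero]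
  rw [h3]
  linarith

theorem offdiag_zero {u : ι → Fin m → ℝ} {T : Matrix (Fin m) (Fin m) ℝ}
    (hmin : ∀ T' : Matrix (Fin m) (Fin m) ℝ, T'.det = 1 → Phi u T ≤ Phi u T')
    (hT : T.det = 1) {i j : Fin m} (hij : i ≠ j) :
    ∑ x, (T *ᵥ u x) i * (T *ᵥ u x) j / nrm (T *ᵥ u x) = 0 := by
  set N := ∑ x, (T *ᵥ u x) i * (T *ᵥ u x) j / nrm (T *ᵥ u x) with hN
  set M := ∑ x, (T *ᵥ u x) j ^ 2 / nrm (T *ᵥ u x) with hM
  have key : ∀ ε : ℝ, 0 ≤ 2 * ε * N + ε ^ 2 * M := by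
    intro ε
    have h := variation hmin hT (Matrix.transvection i j ε) (Matrix.det_transvection_of_ne i j hij ε)
    have e : ∀ v : Fin m → ℝ, ∑ k, (Matrix.transvection i j ε *ᵥ v) k ^ 2 - ∑ k, v k ^ 2 =
        2 * ε * (v i * v j) + ε ^ 2 * v j ^ 2 := by
      intro v
      have e1 : Matrix.transvection i j ε *ᵥ v = Function.update v i (v i + ε * v j) := by
        unfold Matrix.transvection
        rw [Matrix.add_mulVec, Matrix.one_mulVec, Matrix.single_mulVec]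
        funext k
        by_cases hk : k = i
        · subst hk; simp
        · simp [hk]
      rw [e1, ← Finset.sum_sub_distrib, Finset.sum_eq_single i]
      · simp; ring
      · intro k _ hk; simp [hk]
      · simp
    simp_rw [e] at h
    have e2 : ∑ x, (2 * ε * ((T *ᵥ u x) i * (T *ᵥ u x) j) + ε ^ 2 * (T *ᵥ u x) j ^ 2) /
        nrm (T *ᵥ u x) = 2 * ε * N + ε ^ 2 * M := by
      rw [hN, hM, Finset.mul_sum, Finset.mul_sum, ← Finset.sum_add_distrib]
      refine Finset.sum_congr rfl fun x _ => ?_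
      ring
    rwa [e2] at h
  have hM0 : 0 ≤ M := Finset.sum_nonneg fun x _ => div_nonneg (sq_nonneg _) (nrm_nonneg _)
  have h1 := key (-N / (M + 1))
  have hM1 : 0 < M + 1 := by linarith
  have h2 : 2 * (-N / (M + 1)) * N + (-N / (M + 1)) ^ 2 * M = -(N ^ 2 * (M + 2)) / (M + 1) ^ 2 := by
    field_simp; ring
  rw [h2] at h1
  have h3 : 0 ≤ -(N ^ 2 * (M + 2)) := by
    have := mul_nonneg h1 (sq_nonneg (M + 1))
    rwa [div_mul_cancel₀ _ (by positivity)] at this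
  have h4 : N ^ 2 * (M + 2) = 0 := le_antisymm (by linarith) (by positivity)
  rcases mul_eq_zero.1 h4 with h5 | h5
  · exact pow_eq_zero_iff two_ne_zero |>.1 h5
  · linarith

theorem diag_le {u : ι → Fin m → ℝ} {T : Matrix (Fin m) (Fin m) ℝ}
    (hmin : ∀ T' : Matrix (Fin m) (Fin m) ℝ, T'.det = 1 → Phi u T ≤ Phi u T')
    (hT : T.det = 1) {i j : Fin m} (hij : i ≠ j) :
    ∑ x, (T *ᵥ u x) j ^ 2 / nrm (T *ᵥ u x) ≤ ∑ x, (T *ᵥ u x) i ^ 2 / nrm (T *ᵥ u x) := by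
  set Ni := ∑ x, (T *ᵥ u x) i ^ 2 / nrm (T *ᵥ u x) with hNi
  set Nj := ∑ x, (T *ᵥ u x) j ^ 2 / nrm (T *ᵥ u x) with hNj
  have hNi0 : 0 ≤ Ni := Finset.sum_nonneg fun x _ => div_nonneg (sq_nonneg _) (nrm_nonneg _)
  have key : ∀ s : ℝ, 0 < s → 0 ≤ (s ^ 2 - 1) * Ni + ((s⁻¹) ^ 2 - 1) * Nj := by
    intro s hs
    set d : Fin m → ℝ := Function.update (Function.update 1 i s) j s⁻¹ with hd
    have hdi : d i = s := by simp [hd, hij]
    have hdj : d j = s⁻¹ := by simp [hd]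
    have hdk : ∀ k, k ≠ i → k ≠ j → d k = 1 := by
      intro k h1 h2; simp [hd, h1, h2]
    have hdet : (Matrix.diagonal d).det = 1 := by
      rw [Matrix.det_diagonal]
      rw [← Finset.mul_prod_erase _ _ (Finset.mem_univ i),
        ← Finset.mul_prod_erase _ _ (Finset.mem_erase.2 ⟨hij.symm, Finset.mem_univ j⟩), hdi, hdj]
      rw [Finset.prod_eq_one, mul_one, mul_inv_cancel₀ hs.ne']
      intro k hk
      rw [Finset.mem_erase, Finset.mem_erase] at hk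
      exact hdk k hk.2.1 hk.1
    have h := variation hmin hT (Matrix.diagonal d) hdet
    have e : ∀ v : Fin m → ℝ, ∑ k, (Matrix.diagonal d *ᵥ v) k ^ 2 - ∑ k, v k ^ 2 =
        (s ^ 2 - 1) * v i ^ 2 + ((s⁻¹) ^ 2 - 1) * v j ^ 2 := by
      intro v
      rw [← Finset.sum_sub_distrib]
      simp only [Matrix.mulVec_diagonal]
      rw [← Finset.add_sum_erase _ _ (Finset.mem_univ i),
        ← Finset.add_sum_erase _ _ (Finset.mem_erase.2 ⟨hij.symm, Finset.mem_univ j⟩),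
        Finset.sum_eq_zero, hdi, hdj]
      · ring
      · intro k hk
        rw [Finset.mem_erase, Finset.mem_erase] at hk
        rw [hdk k hk.2.1 hk.1]; ring
    simp_rw [e] at h
    have e2 : ∑ x, ((s ^ 2 - 1) * (T *ᵥ u x) i ^ 2 + ((s⁻¹) ^ 2 - 1) * (T *ᵥ u x) j ^ 2) /
        nrm (T *ᵥ u x) = (s ^ 2 - 1) * Ni + ((s⁻¹) ^ 2 - 1) * Nj := by
      rw [hNi, hNj, Finset.mul_sum, Finset.mul_sum, ← Finset.sum_add_distrib]
      refine Finset.sum_congr rfl fun x _ => ?_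
      ring
    rwa [e2] at h
  by_contra hlt
  push Not at hlt
  -- choose `s > 1` with `s ^ 2 * Ni < Nj`
  have hNj0 : 0 < Nj := lt_of_le_of_lt hNi0 hlt
  obtain ⟨s, hs1, hs2⟩ : ∃ s : ℝ, 1 < s ∧ s ^ 2 * Ni < Nj := by
    rcases hNi0.eq_or_lt with h0 | h0
    · exact ⟨2, by norm_num, by rw [← h0]; simpa using hNj0⟩
    · have hq : 1 < Nj / Ni := by rwa [one_lt_div h0]
      obtain ⟨t, ht1, ht2⟩ := exists_between hq
      refine ⟨√t, ?_, ?_⟩
      · rw [← Real.sqrt_one]; exact Real.sqrt_lt_sqrt zero_le_one ht1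
      · rw [Real.sq_sqrt (by linarith)]
        rwa [lt_div_iff₀ h0] at ht2
  have h := key s (by linarith)
  have hs0 : 0 < s := by linarith
  have e : (s ^ 2 - 1) * Ni + ((s⁻¹) ^ 2 - 1) * Nj = (s ^ 2 - 1) / s ^ 2 * (s ^ 2 * Ni - Nj) := by
    field_simp; ring
  rw [e] at h
  have h3 : 0 < (s ^ 2 - 1) / s ^ 2 := by
    apply div_pos
    · nlinarith
    · positivity
  have h4 : (s ^ 2 - 1) / s ^ 2 * (s ^ 2 * Ni - Nj) < 0 :=
    mul_neg_of_pos_of_neg h3 (by linarith)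
  linarith

/-- Existence of the balanced position. -/
theorem exists_balanced {u : ι → Fin m → ℝ} (hm : 1 ≤ m)
    (hu : ∀ i j, ∑ x, u x i * u x j = if i = j then 1 else 0) :
    ∃ T : Matrix (Fin m) (Fin m) ℝ, T.det = 1 ∧
      ∀ i j, ∑ x, (T *ᵥ u x) i * (T *ᵥ u x) j / nrm (T *ᵥ u x) =
        if i = j then Phi u T / m else 0 := by
  obtain ⟨T, hT, hmin⟩ := exists_min hu
  refine ⟨T, hT, fun i j => ?_⟩
  split_ifs with h
  · subst h
    have hall : ∀ j, ∑ x, (T *ᵥ u x) j ^ 2 / nrm (T *ᵥ u x) =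
        ∑ x, (T *ᵥ u x) i ^ 2 / nrm (T *ᵥ u x) := by
      intro j
      by_cases hij : i = j
      · rw [hij]
      · exact le_antisymm (diag_le hmin hT hij) (diag_le hmin hT (Ne.symm hij))
    have hsum : ∑ j : Fin m, ∑ x, (T *ᵥ u x) j ^ 2 / nrm (T *ᵥ u x) = Phi u T := by
      rw [Finset.sum_comm]
      unfold Phi
      refine Finset.sum_congr rfl fun x _ => ?_
      rw [← Finset.sum_div, ← nrm_sq]
      rcases (nrm_nonneg (T *ᵥ u x)).eq_or_lt with h0 | h0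
      · rw [← h0]; simp
      · field_simp
    simp_rw [hall] at hsum
    rw [Finset.sum_const, Finset.card_univ, Fintype.card_fin, nsmul_eq_mul] at hsum
    have hm0 : (m : ℝ) ≠ 0 := by
      have : 0 < m := hm
      positivity
    rw [← hsum]
    have e : ∑ x, (T *ᵥ u x) i * (T *ᵥ u x) i / nrm (T *ᵥ u x) =
        ∑ x, (T *ᵥ u x) i ^ 2 / nrm (T *ᵥ u x) :=
      Finset.sum_congr rfl fun x _ => by rw [sq]
    rw [e]
    field_simp
  · exact offdiag_zero hmin hT h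

end Pool.Agent.Lib.MP_b9b22b_co
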