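import Pool.Agent.Lib.MP_b9b22b_co.Sphere
import Pool.Agent.Lib.MP_b9b22b_co.Position

/-!
The core inequality: a quadratic form with coefficients of absolute value at most `1/2` that is at
least `μ |f|^2` on an `m`-dimensional space satisfies `μ ≤ κ_m n / 2`.
-/

set_option autoImplicit false

namespace Pool.Agent.Lib.MP_b9b22b_co

open Finset Matrix

theorem kap_nonneg {m : ℕ} (hm : 1 ≤ m) : 0 ≤ kap m := by
  have hm' : (1 : ℝ) ≤ m := by exact_mod_cast hm
  unfold kap
  have : 0 ≤ ((m : ℝ) - 1) / 2 := by linarith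
  positivity

theorem core {ι : Type*} [Fintype ι] {m : ℕ} (hm : 1 ≤ m) (K : ι → ι → ℝ)
    (hK : ∀ x y, |K x y| ≤ 1 / 2) (u : ι → Fin m → ℝ)
    (hu : ∀ i j, ∑ x, u x i * u x j = if i = j then 1 else 0) (μ : ℝ)
    (hform : ∀ c : Fin m → ℝ, μ * ∑ x, (∑ j, c j * u x j) ^ 2 ≤
      ∑ x, ∑ y, K x y * ((∑ j, c j * u x j) * (∑ j, c j * u y j))) :
    μ ≤ kap m / 2 * Fintype.card ι := by
  obtain ⟨T, hT, hN⟩ := exists_balanced hm hu
  set v : ι → Fin m → ℝ := fun x => T *ᵥ u x with hv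
  set R := Phi u T with hR
  have hsph := sphere_ineq hm v (fun x => nrm (v x)) (fun x => nrm_nonneg _) (fun x => nrm_sq _) R
    rfl hN
  have hvi : ∀ x i, v x i = ∑ j, T i j * u x j := fun x i => rfl
  -- sum the form inequality over the rows of T
  have h1 : μ * ∑ x, nrm (v x) ^ 2 ≤ ∑ x, ∑ y, K x y * ∑ i, v x i * v y i := by
    have h2 : ∑ i, μ * ∑ x, (∑ j, T i j * u x j) ^ 2 ≤
      ∑ i, ∑ x, ∑ y, K x y * ((∑ j, T i j * u x j) * (∑ j, T i j * u y j)) :=
      Finset.sum_le_sum fun i _ => hform (T i)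
    have e1 : ∑ i, μ * ∑ x, (∑ j, T i j * u x j) ^ 2 = μ * ∑ x, nrm (v x) ^ 2 := by
      rw [← Finset.mul_sum, Finset.sum_comm]
      congr 1
      refine Finset.sum_congr rfl fun x _ => ?_
      rw [nrm_sq]
      rfl
    have e2 : ∑ i, ∑ x, ∑ y, K x y * ((∑ j, T i j * u x j) * (∑ j, T i j * u y j)) =
        ∑ x, ∑ y, K x y * ∑ i, v x i * v y i := by
      rw [Finset.sum_comm]
      refine Finset.sum_congr rfl fun x _ => ?_
      rw [Finset.sum_comm]
      refine Finset.sum_congr rfl fun y _ => ?_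
      rw [Finset.mul_sum]
      rfl
    rw [e1, e2] at h2
    exact h2
  have h3 : ∑ x, ∑ y, K x y * ∑ i, v x i * v y i ≤ 1 / 2 * ∑ x, ∑ y, |∑ i, v x i * v y i| := by
    rw [Finset.mul_sum]
    refine Finset.sum_le_sum fun x _ => ?_
    rw [Finset.mul_sum]
    refine Finset.sum_le_sum fun y _ => ?_
    calc K x y * ∑ i, v x i * v y i ≤ |K x y * ∑ i, v x i * v y i| := le_abs_self _
      _ = |K x y| * |∑ i, v x i * v y i| := abs_mul _ _
      _ ≤ 1 / 2 * |∑ i, v x i * v y i| := mul_le_mul_of_nonneg_right (hK x y) (abs_nonneg _)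
  have h4 : R ^ 2 ≤ Fintype.card ι * ∑ x, nrm (v x) ^ 2 := by
    have := sq_sum_le_card_mul_sum_sq (s := (Finset.univ : Finset ι)) (f := fun x => nrm (v x))
    rwa [Finset.card_univ] at this
  have hkap := kap_nonneg hm
  rcases le_or_gt μ 0 with h0 | h0
  · have : 0 ≤ kap m / 2 * Fintype.card ι := by positivity
    linarith
  have hRpos : 0 < R := by
    refine lt_of_le_of_ne (Phi_nonneg u T) fun h => ?_
    have h5 : ∀ x, u x = 0 := by
      intro x
      by_contra hx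
      have h6 := mulVec_ne_zero hT hx
      apply h6
      apply nrm_eq_zero
      have h7 := (Finset.sum_eq_zero_iff_of_nonneg (fun x _ => nrm_nonneg (T *ᵥ u x))).1
        h.symm x (Finset.mem_univ x)
      exact h7
    have h8 := hu ⟨0, hm⟩ ⟨0, hm⟩
    rw [if_pos rfl] at h8
    simp [h5] at h8
  have h9 : μ * R ^ 2 ≤ kap m / 2 * Fintype.card ι * R ^ 2 := by
    calc μ * R ^ 2 ≤ μ * (Fintype.card ι * ∑ x, nrm (v x) ^ 2) :=
          mul_le_mul_of_nonneg_left h4 h0.le
      _ = Fintype.card ι * (μ * ∑ x, nrm (v x) ^ 2) := by ring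
      _ ≤ Fintype.card ι * (1 / 2 * (kap m * R ^ 2)) := by
          refine mul_le_mul_of_nonneg_left ?_ (Nat.cast_nonneg _)
          linarith
      _ = kap m / 2 * Fintype.card ι * R ^ 2 := by ring
  exact le_of_mul_le_mul_right h9 (by positivity)

end Pool.Agent.Lib.MP_b9b22b_co
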