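import Pool.Agent.Lib.MP_b9b22b_co.Pattern

/-!
Graphs from regular symmetric Hadamard matrices with constant diagonal.
-/

set_option autoImplicit false

namespace Pool.Agent.Lib.MP_b9b22b_co

open Finset Matrix Module

/-- the fixed space of an idempotent matrix, parametrised -/
theorem exists_param {V : Type*} [Fintype V] [DecidableEq V] (Q : Matrix V V ℝ) (hQ : Q * Q = Q)
    {k : ℕ} (htr : Q.trace = k) :
    ∃ L : (Fin k → ℝ) →ₗ[ℝ] (V → ℝ), Function.Injective L ∧ ∀ a, Q.mulVec (L a) = L a := by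
  have hid : IsIdempotentElem (Matrix.toLin' Q) := by
    unfold IsIdempotentElem
    rw [Module.End.mul_eq_comp, ← Matrix.toLin'_mul, hQ]
  have hp := LinearMap.IsIdempotentElem.isProj_range _ hid
  have h1 := hp.trace
  rw [Matrix.trace_toLin'_eq, htr] at h1
  have h2 : k = finrank ℝ (LinearMap.range (Matrix.toLin' Q)) := by exact_mod_cast h1
  let e : (Fin k → ℝ) ≃ₗ[ℝ] LinearMap.range (Matrix.toLin' Q) :=
    LinearEquiv.ofFinrankEq _ _ (by rw [finrank_fin_fun]; exact h2)
  refine ⟨(LinearMap.range (Matrix.toLin' Q)).subtype ∘ₗ e.toLinearMap, ?_, fun a => ?_⟩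
  · exact (Submodule.injective_subtype _).comp e.injective
  · have := hp.map_id (e a : V → ℝ) (e a).2
    rw [Matrix.toLin'_apply] at this
    exact this

variable {V : Type} [Fintype V] [DecidableEq V]

/-- A symmetric Hadamard matrix of order `4 m²` with diagonal `-1` and all row sums `σ`. -/
structure Hada (V : Type) [Fintype V] [DecidableEq V] (m : ℕ) (σ : ℝ) where
  H : V → V → ℝ
  symm : ∀ x y, H x y = H y x
  pm : ∀ x y, H x y = 1 ∨ H x y = -1
  diag : ∀ x, H x x = -1
  sq : ∀ x z, ∑ y, H x y * H y z = if x = z then 4 * (m : ℝ) ^ 2 else 0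
  row : ∀ x, ∑ y, H x y = σ

namespace Hada

variable {m : ℕ} {σ : ℝ} (P : Hada V m σ)

/-- the graph whose edges are the entries `1` -/
def graph : SimpleGraph V where
  Adj x y := P.H x y = 1
  symm := ⟨fun x y h => by rw [P.symm]; exact h⟩
  loopless := ⟨fun x h => by rw [P.diag] at h; norm_num at h⟩

include P in
theorem card_eq [Nonempty V] : (Fintype.card V : ℝ) = 4 * (m : ℝ) ^ 2 := by
  obtain ⟨x⟩ := ‹Nonempty V›
  have h := P.sq x x
  rw [if_pos rfl] at h
  rw [← h]
  have : ∀ y, P.H x y * P.H y x = 1 := by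
    intro y
    rw [P.symm y x]
    rcases P.pm x y with h | h <;> rw [h] <;> norm_num
  simp_rw [this]
  simp

theorem exists_eigen [Nonempty V] (hm : 1 ≤ m) {s : ℝ} (hs : s * s = 1) {k : ℕ}
    (hk : (k : ℝ) = m * (2 * m - s)) :
    ∃ L : (Fin k → ℝ) →ₗ[ℝ] (V → ℝ), Function.Injective L ∧
      ∀ a x, ∑ y, P.H x y * L a y = s * (2 * m) * L a x := by
  have hm' : (1 : ℝ) ≤ m := by exact_mod_cast hm
  have hm0 : (m : ℝ) ≠ 0 := by positivity
  set Q : Matrix V V ℝ := Matrix.of fun x y => (s * P.H x y + (if x = y then 2 * (m : ℝ) else 0)) /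
    (4 * m) with hQdef
  have hQ : Q * Q = Q := by
    ext x z
    rw [Matrix.mul_apply]
    simp only [hQdef, Matrix.of_apply]
    have e : ∀ y, (s * P.H x y + (if x = y then 2 * (m : ℝ) else 0)) / (4 * m) *
        ((s * P.H y z + (if y = z then 2 * (m : ℝ) else 0)) / (4 * m)) =
        (P.H x y * P.H y z + s * (if y = z then P.H x y * (2 * (m : ℝ)) else 0) +
          s * (if x = y then 2 * (m : ℝ) * P.H y z else 0) +
          (if x = y then 2 * (m : ℝ) * (if y = z then 2 * (m : ℝ) else 0) else 0)) /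
          (16 * (m : ℝ) ^ 2) := by
      intro y
      field_simp
      split_ifs <;> linear_combination (16 * P.H x y * P.H y z) * hs
    simp_rw [e]
    rw [← Finset.sum_div, Finset.sum_add_distrib, Finset.sum_add_distrib, Finset.sum_add_distrib,
      P.sq, ← Finset.mul_sum, ← Finset.mul_sum, Finset.sum_ite_eq', Finset.sum_ite_eq,
      Finset.sum_ite_eq]
    simp only [Finset.mem_univ, if_true]
    split_ifs <;> (field_simp; ring)
  have htr : Q.trace = k := by
    rw [Matrix.trace]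
    simp only [hQdef, Matrix.diag_apply, Matrix.of_apply, P.diag, if_true]
    rw [Finset.sum_const, Finset.card_univ, nsmul_eq_mul, P.card_eq, hk]
    field_simp
    ring
  obtain ⟨L, hL, hLQ⟩ := exists_param Q hQ htr
  refine ⟨L, hL, fun a x => ?_⟩
  have h := congrFun (hLQ a) x
  rw [Matrix.mulVec, dotProduct] at h
  simp only [hQdef, Matrix.of_apply] at h
  have e : ∀ y, (s * P.H x y + (if x = y then 2 * (m : ℝ) else 0)) / (4 * m) * L a y =
      (s * (P.H x y * L a y) + (if x = y then 2 * (m : ℝ) * L a y else 0)) / (4 * m) := by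
    intro y
    split_ifs <;> ring
  simp_rw [e] at h
  rw [← Finset.sum_div, Finset.sum_add_distrib, ← Finset.mul_sum, Finset.sum_ite_eq,
    if_pos (Finset.mem_univ x)] at h
  rw [div_eq_iff (by positivity)] at h
  have h2 : s * (∑ y, P.H x y * L a y) = 2 * m * L a x := by linarith
  have h3 : s * (s * (∑ y, P.H x y * L a y)) = s * (2 * m * L a x) := by rw [h2]
  rw [← mul_assoc, hs, one_mul] at h3
  rw [h3]; ring

open scoped Classical in
theorem form_eq (f : V → ℝ) :
    ∑ x, ∑ y, P.graph.adjMatrix ℝ x y * (f x * f y) =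
      1 / 2 * (∑ x, f x) ^ 2 + 1 / 2 * ∑ x, f x * ∑ y, P.H x y * f y := by
  have e : ∀ x y, P.graph.adjMatrix ℝ x y * (f x * f y) =
      1 / 2 * (f x * f y) + 1 / 2 * (f x * (P.H x y * f y)) := by
    intro x y
    rw [SimpleGraph.adjMatrix_apply]
    have : P.graph.Adj x y ↔ P.H x y = 1 := Iff.rfl
    rcases P.pm x y with h | h
    · rw [if_pos (this.2 h), h]; ring
    · rw [if_neg (by rw [this, h]; norm_num), h]; ring
  simp_rw [e, Finset.sum_add_distrib, ← Finset.mul_sum]
  rw [← Finset.sum_mul, pow_two]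

/-- row sum `-2m`: the `(2 m² - m + 1)`-st eigenvalue is at least `m` -/
theorem le_lam [Nonempty V] (P : Hada V m (-(2 * m))) (hm : 1 ≤ m) :
    (m : ℝ) ≤ lam P.graph (2 * m ^ 2 - m + 1) := by
  classical
  have hm' : (1 : ℝ) ≤ m := by exact_mod_cast hm
  have hle : m ≤ 2 * m ^ 2 := by nlinarith
  obtain ⟨L, hL, hLe⟩ := P.exists_eigen hm (s := 1) (by norm_num) (k := 2 * m ^ 2 - m) (by
    rw [Nat.cast_sub hle]; push_cast; ring)
  have hcard : Fintype.card V = 4 * m ^ 2 := by
    have := P.card_eq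
    exact_mod_cast this
  have hsum : ∀ a, ∑ x, L a x = 0 := by
    intro a
    have h1 : ∑ x, ∑ y, P.H x y * L a y = 1 * (2 * m) * ∑ x, L a x := by
      rw [Finset.mul_sum]
      exact Finset.sum_congr rfl fun x _ => hLe a x
    rw [Finset.sum_comm] at h1
    simp_rw [← Finset.sum_mul] at h1
    have h2 : ∀ y, ∑ x, P.H x y = -(2 * m) := by
      intro y
      exact (Finset.sum_congr rfl fun x _ => P.symm x y).trans (P.row y)
    simp_rw [h2, ← Finset.mul_sum] at h1
    have h3 : (4 * (m : ℝ)) * ∑ x, L a x = 0 := by linarith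
    rcases mul_eq_zero.1 h3 with h | h
    · exfalso; linarith
    · exact h
  unfold lam
  have hlt : 2 * m ^ 2 - m + 1 - 1 < Fintype.card V := by
    rw [hcard]
    have : 1 ≤ m ^ 2 := Nat.one_le_pow _ _ hm
    omega
  rw [dif_pos hlt]
  refine le_eigenvalues₀ (adj_isHermitian P.graph) ⟨2 * m ^ 2 - m + 1 - 1, hlt⟩
    (m := 2 * m ^ 2 - m + 1) (by simp) (addConst L) (addConst_injective hL hsum) ?_
  intro a
  rw [P.form_eq]
  set b : Fin (2 * m ^ 2 - m) → ℝ := fun t => a t.succ with hb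
  have e1 : ∀ x, ∑ y, P.H x y * addConst L a y = 2 * m * L b x - 2 * m * a 0 := by
    intro x
    simp_rw [addConst_apply, mul_add, Finset.sum_add_distrib, ← Finset.sum_mul]
    rw [hLe, P.row]
    ring
  simp_rw [e1, addConst_apply]
  rw [Finset.sum_add_distrib, hsum, zero_add, Finset.sum_const, Finset.card_univ, nsmul_eq_mul,
    P.card_eq]
  have e2 : ∑ x, (L (fun t => a t.succ) x + a 0) * (2 * m * L b x - 2 * m * a 0) =
      2 * m * ∑ x, (L b x) ^ 2 - 2 * m * a 0 ^ 2 * (4 * (m : ℝ) ^ 2) := by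
    rw [← P.card_eq]
    have e3 : (Fintype.card V : ℝ) = ∑ _u : V, (1 : ℝ) := by simp
    rw [e3, Finset.mul_sum, Finset.mul_sum, ← Finset.sum_sub_distrib]
    exact Finset.sum_congr rfl fun u _ => by ring
  have e4 : ∑ x, (L (fun t => a t.succ) x + a 0) ^ 2 =
      ∑ x, (L b x) ^ 2 + a 0 ^ 2 * (4 * (m : ℝ) ^ 2) := by
    have e5 : ∀ x, (L (fun t => a t.succ) x + a 0) ^ 2 =
        (L b x) ^ 2 + (2 * a 0) * L b x + a 0 ^ 2 := by
      intro x; ring
    simp_rw [e5, Finset.sum_add_distrib, ← Finset.mul_sum]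
    rw [hsum, Finset.sum_const, Finset.card_univ, nsmul_eq_mul, P.card_eq]
    ring
  rw [e2, e4]
  have h5 : 0 ≤ (m : ℝ) - 1 := by linarith
  have h6 : 0 ≤ (m : ℝ) ^ 3 * (m - 1) * a 0 ^ 2 := by positivity
  nlinarith [h6]

/-- row sum `2m`: the `(2 m² - m + 1)`-st eigenvalue is at most `-m` -/
theorem lam_le [Nonempty V] (P : Hada V m (2 * m)) (hm : 1 ≤ m) :
    lam P.graph (2 * m ^ 2 - m + 1) ≤ -(m : ℝ) := by
  classical
  have hm' : (1 : ℝ) ≤ m := by exact_mod_cast hm
  have hle : m ≤ 2 * m ^ 2 := by nlinarith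
  obtain ⟨L, hL, hLe⟩ := P.exists_eigen hm (s := -1) (by norm_num) (k := 2 * m ^ 2 + m) (by
    push_cast; ring)
  have hcard : Fintype.card V = 4 * m ^ 2 := by
    have := P.card_eq
    exact_mod_cast this
  have hsum : ∀ a, ∑ x, L a x = 0 := by
    intro a
    have h1 : ∑ x, ∑ y, P.H x y * L a y = -1 * (2 * m) * ∑ x, L a x := by
      rw [Finset.mul_sum]
      exact Finset.sum_congr rfl fun x _ => hLe a x
    rw [Finset.sum_comm] at h1
    simp_rw [← Finset.sum_mul] at h1
    have h2 : ∀ y, ∑ x, P.H x y = 2 * m := by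
      intro y
      exact (Finset.sum_congr rfl fun x _ => P.symm x y).trans (P.row y)
    simp_rw [h2, ← Finset.mul_sum] at h1
    have h3 : (4 * (m : ℝ)) * ∑ x, L a x = 0 := by linarith
    rcases mul_eq_zero.1 h3 with h | h
    · exfalso; linarith
    · exact h
  unfold lam
  have hlt : 2 * m ^ 2 - m + 1 - 1 < Fintype.card V := by
    rw [hcard]
    have : 1 ≤ m ^ 2 := Nat.one_le_pow _ _ hm
    omega
  rw [dif_pos hlt]
  refine eigenvalues₀_le (adj_isHermitian P.graph) ⟨2 * m ^ 2 - m + 1 - 1, hlt⟩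
    (m := 2 * m ^ 2 + m) (by
      show Fintype.card V - (2 * m ^ 2 - m + 1 - 1) ≤ 2 * m ^ 2 + m
      omega) L hL ?_
  intro a
  rw [P.form_eq, hsum]
  simp_rw [hLe a]
  have e2 : ∑ x, L a x * (-1 * (2 * m) * L a x) = -(2 * m) * ∑ x, (L a x) ^ 2 := by
    rw [Finset.mul_sum]
    exact Finset.sum_congr rfl fun u _ => by ring
  rw [e2]
  linarith

/-- transport along a bijection -/
def map {W : Type} [Fintype W] [DecidableEq W] (P : Hada V m σ) (e : W ≃ V) : Hada W m σ where
  H x y := P.H (e x) (e y)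
  symm _ _ := P.symm _ _
  pm _ _ := P.pm _ _
  diag _ := P.diag _
  sq x z := by
    rw [e.sum_comp (fun y => P.H (e x) y * P.H y (e z)), P.sq]
    simp
  row x := by
    rw [e.sum_comp (fun y => P.H (e x) y), P.row]

end Hada

/-! ### the product construction -/

/-- `1` except `-1` on the antidiagonal: diagonal `1`, row sums `2` -/
def h1 (a b : Fin 4) : ℤ := if a = Fin.rev b then -1 else 1

/-- `1` except `-1` on the diagonal: diagonal `-1`, row sums `2` -/
def h0 (a b : Fin 4) : ℤ := if a = b then -1 else 1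

/-- the product of a base matrix and copies of `h1` -/
def prodH (g : Fin 4 → Fin 4 → ℤ) (r : ℕ) (x y : Fin 4 × (Fin r → Fin 4)) : ℤ :=
  g x.1 y.1 * ∏ k, h1 (x.2 k) (y.2 k)

theorem h1_symm : ∀ a b : Fin 4, h1 a b = h1 b a := by decide

theorem h1_diag : ∀ a : Fin 4, h1 a a = 1 := by decide

theorem h1_pm : ∀ a b : Fin 4, h1 a b = 1 ∨ h1 a b = -1 := by decide

theorem h1_row : ∀ a : Fin 4, ∑ b, h1 a b = 2 := by decide

theorem h1_sq : ∀ a c : Fin 4, ∑ b, h1 a b * h1 b c = if a = c then 4 else 0 := by decide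

theorem prod_h1_pm {r : ℕ} (x y : Fin r → Fin 4) :
    ∏ k, h1 (x k) (y k) = 1 ∨ ∏ k, h1 (x k) (y k) = -1 := by
  have : (∏ k, h1 (x k) (y k)) ^ 2 = 1 := by
    rw [← Finset.prod_pow]
    refine Finset.prod_eq_one fun k _ => ?_
    rcases h1_pm (x k) (y k) with h | h <;> rw [h] <;> norm_num
  rw [pow_two] at this
  exact mul_self_eq_one_iff.1 this

theorem sum_pi {r : ℕ} (F : Fin r → Fin 4 → ℤ) :
    ∑ y : Fin r → Fin 4, ∏ k, F k (y k) = ∏ k, ∑ b, F k b := by
  rw [Finset.prod_univ_sum]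
  simp [Fintype.piFinset_univ]

/-- the product matrix as a Hadamard matrix -/
def prodHada (g : Fin 4 → Fin 4 → ℤ) (r : ℕ) (ρ : ℤ) (gsymm : ∀ a b, g a b = g b a)
    (gpm : ∀ a b, g a b = 1 ∨ g a b = -1) (gdiag : ∀ a, g a a = -1)
    (gsq : ∀ a c, ∑ b, g a b * g b c = if a = c then 4 else 0) (grow : ∀ a, ∑ b, g a b = ρ) :
    Hada (Fin 4 × (Fin r → Fin 4)) (2 ^ r) ((ρ : ℝ) * 2 ^ r) where
  H x y := ((prodH g r x y : ℤ) : ℝ)
  symm x y := by
    unfold prodH
    rw [gsymm, Finset.prod_congr rfl fun k _ => h1_symm (x.2 k) (y.2 k)]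
  pm x y := by
    unfold prodH
    rcases gpm x.1 y.1 with h | h <;> rcases prod_h1_pm x.2 y.2 with h' | h' <;> simp [h, h']
  diag x := by
    unfold prodH
    simp [gdiag, h1_diag]
  sq x z := by
    have e : ∑ y, prodH g r x y * prodH g r y z = if x = z then 4 * (2 ^ r) ^ 2 else 0 := by
      unfold prodH
      rw [Fintype.sum_prod_type]
      have e1 : ∀ (b : Fin 4) (w : Fin r → Fin 4),
          g x.1 b * (∏ k, h1 (x.2 k) (w k)) * (g b z.1 * ∏ k, h1 (w k) (z.2 k)) =
          (g x.1 b * g b z.1) * ∏ k, h1 (x.2 k) (w k) * h1 (w k) (z.2 k) := by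
        intro b w
        rw [Finset.prod_mul_distrib]
        ring
      simp only [e1]
      simp_rw [← Finset.mul_sum]
      rw [← Finset.sum_mul, gsq, sum_pi (fun k b => h1 (x.2 k) b * h1 b (z.2 k))]
      simp_rw [h1_sq]
      by_cases hxz : x = z
      · subst hxz
        simp only [if_true, Finset.prod_const, Finset.card_univ, Fintype.card_fin]
        rw [← pow_mul, mul_comm r 2, pow_mul]
        norm_num
      · rw [if_neg hxz]
        by_cases h1' : x.1 = z.1
        · have h2' : x.2 ≠ z.2 := fun h => hxz (Prod.ext h1' h)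
          obtain ⟨k, hk⟩ := Function.ne_iff.1 h2'
          rw [Finset.prod_eq_zero (Finset.mem_univ k) (if_neg hk), mul_zero]
        · rw [if_neg h1', zero_mul]
    have e2 : ∑ y, ((prodH g r x y : ℤ) : ℝ) * ((prodH g r y z : ℤ) : ℝ) =
        ((∑ y, prodH g r x y * prodH g r y z : ℤ) : ℝ) := by push_cast; rfl
    rw [e2, e]
    push_cast
    rfl
  row x := by
    have e : ∑ y, prodH g r x y = ρ * 2 ^ r := by
      unfold prodH
      rw [Fintype.sum_prod_type]
      simp only
      simp_rw [← Finset.mul_sum]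
      rw [← Finset.sum_mul, grow, sum_pi (fun k b => h1 (x.2 k) b)]
      simp_rw [h1_row]
      simp
    rw [← Int.cast_sum, e]
    push_cast
    rfl

/-- diagonal `-1`, row sums `-2 ^ (r + 1)` -/
def hadaMinus (r : ℕ) : Hada (Fin 4 × (Fin r → Fin 4)) (2 ^ r) (((-2 : ℤ) : ℝ) * 2 ^ r) :=
  prodHada (fun a b => -h1 a b) r (-2) (by decide) (by decide) (by decide) (by decide) (by decide)

/-- diagonal `-1`, row sums `2 ^ (r + 1)` -/
def hadaPlus (r : ℕ) : Hada (Fin 4 × (Fin r → Fin 4)) (2 ^ r) (((2 : ℤ) : ℝ) * 2 ^ r) :=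
  prodHada h0 r 2 (by decide) (by decide) (by decide) (by decide) (by decide)

end Pool.Agent.Lib.MP_b9b22b_co
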