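import Pool.Agent.Lib.MP_b9b22b_co.Blow

/-!
Patterns: reflexive symmetric relations whose relation matrix has an `m`-dimensional space of
mean zero eigenvectors.
-/

set_option autoImplicit false

namespace Pool.Agent.Lib.MP_b9b22b_co

open Finset Matrix

/-- A reflexive symmetric relation on `U`, regular of degree `d`, with an `m`-dimensional space of
mean zero eigenvectors for the eigenvalue `c ≤ d` of its relation matrix. -/
structure Pattern (U : Type) [Fintype U] (m : ℕ) (c d : ℝ) where
  R : U → U → Bool
  symm : ∀ u w, R u w = true → R w u = true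
  refl : ∀ u, R u u = true
  L : (Fin m → ℝ) →ₗ[ℝ] (U → ℝ)
  inj : Function.Injective L
  sum_zero : ∀ a, ∑ u, L a u = 0
  eig : ∀ a u, ∑ w, (if R u w then L a w else 0) = c * L a u
  deg : ∀ u, ∑ w, (if R u w then (1 : ℝ) else 0) = d
  c_le : c ≤ d

variable {U : Type} [Fintype U] {m : ℕ} {c d : ℝ}

/-- adding a constant -/
def addConst (L : (Fin m → ℝ) →ₗ[ℝ] (U → ℝ)) : (Fin (m + 1) → ℝ) →ₗ[ℝ] (U → ℝ) where
  toFun a := fun u => L (fun t => a t.succ) u + a 0
  map_add' a b := by
    funext u
    have : (fun t : Fin m => (a + b) t.succ) = (fun t => a t.succ) + (fun t => b t.succ) := rfl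
    rw [this, map_add]
    simp only [Pi.add_apply]
    ring
  map_smul' r a := by
    funext u
    have : (fun t : Fin m => (r • a) t.succ) = r • (fun t => a t.succ) := rfl
    rw [this, map_smul]
    simp only [Pi.smul_apply, smul_eq_mul, RingHom.id_apply]
    ring

omit [Fintype U] in
theorem addConst_apply (L : (Fin m → ℝ) →ₗ[ℝ] (U → ℝ)) (a : Fin (m + 1) → ℝ) (u : U) :
    addConst L a u = L (fun t => a t.succ) u + a 0 := rfl

theorem addConst_injective [Nonempty U] {L : (Fin m → ℝ) →ₗ[ℝ] (U → ℝ)}
    (hL : Function.Injective L) (h0 : ∀ a, ∑ u, L a u = 0) :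
    Function.Injective (addConst (U := U) L) := by
  rw [injective_iff_map_eq_zero]
  intro a ha
  have h1 : ∑ u, addConst L a u = 0 := by rw [ha]; simp
  simp_rw [addConst_apply] at h1
  rw [Finset.sum_add_distrib, h0, zero_add, Finset.sum_const, Finset.card_univ, nsmul_eq_mul] at h1
  have h2 : a 0 = 0 := by
    rcases mul_eq_zero.1 h1 with h | h
    · have : Fintype.card U ≠ 0 := Fintype.card_ne_zero
      exact absurd (by exact_mod_cast h) this
    · exact h
  have h3 : L (fun t => a t.succ) = 0 := by
    funext u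
    have := congrFun ha u
    rw [addConst_apply, h2, add_zero] at this
    exact this
  have h4 : (fun t : Fin m => a t.succ) = 0 := (injective_iff_map_eq_zero L).1 hL _ h3
  funext t
  refine Fin.cases h2 (fun t => ?_) t
  exact congrFun h4 t

theorem Pattern.upper [Nonempty U] (P : Pattern U m c d) {n k : ℕ} (hk : 1 ≤ k)
    (hn : n = Fintype.card U * k) (hm : m + 1 ≤ n) :
    ∃ G : SimpleGraph (Fin n), c * k - 1 ≤ lam G (m + 1) := by
  classical
  have hcard : Fintype.card (Fin n) = Fintype.card (U × Fin k) := by
    rw [Fintype.card_fin, Fintype.card_prod, Fintype.card_fin, hn]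
  let e : Fin n ≃ U × Fin k := Fintype.equivOfCardEq hcard
  refine ⟨blow (fun u w => P.R u w = true) P.symm e, ?_⟩
  refine le_lam_closed (fun u w => P.R u w = true) P.symm P.refl hk (by omega) e (addConst P.L)
    (addConst_injective P.inj P.sum_zero) c ?_ (by rw [Fintype.card_fin]; exact hm)
  intro a
  set b : Fin m → ℝ := fun t => a t.succ with hb
  have e1 : ∀ u, ∑ w, (if P.R u w then addConst P.L a u * addConst P.L a w else 0) =
      (P.L b u + a 0) * (c * P.L b u + d * a 0) := by
    intro u
    have h1 : ∀ w, (if P.R u w then addConst P.L a u * addConst P.L a w else 0) =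
        (P.L b u + a 0) * ((if P.R u w then P.L b w else 0) + (if P.R u w then (1 : ℝ) else 0) * a 0) := by
      intro w
      rw [addConst_apply, addConst_apply]
      split_ifs <;> ring
    simp_rw [h1]
    rw [← Finset.mul_sum, Finset.sum_add_distrib, P.eig, ← Finset.sum_mul, P.deg]
  simp_rw [e1, addConst_apply]
  have e2 : ∑ u, (P.L b u + a 0) * (c * P.L b u + d * a 0) =
      c * ∑ u, (P.L b u + a 0) ^ 2 + ((d - c) * a 0) * ∑ u, P.L b u
        + (d - c) * a 0 ^ 2 * Fintype.card U := by
    have e3 : (Fintype.card U : ℝ) = ∑ _u : U, (1 : ℝ) := by simp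
    rw [e3, Finset.mul_sum, Finset.mul_sum, Finset.mul_sum, ← Finset.sum_add_distrib,
      ← Finset.sum_add_distrib]
    refine Finset.sum_congr rfl fun u _ => ?_
    ring
  rw [e2, P.sum_zero, mul_zero, add_zero]
  have : 0 ≤ (d - c) * a 0 ^ 2 * Fintype.card U := by
    have := P.c_le
    have h5 : 0 ≤ d - c := by linarith
    positivity
  change c * ∑ u, (P.L b u + a 0) ^ 2 ≤ _
  linarith

theorem Pattern.lower [Nonempty U] (P : Pattern U m c d) {n k : ℕ} (hk : 1 ≤ k) (hm1 : 1 ≤ m)
    (hn : n = Fintype.card U * k) (hm : m ≤ n) :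
    ∃ G : SimpleGraph (Fin n), lam G (n + 1 - m) ≤ -(c * k) := by
  classical
  have hcard : Fintype.card (Fin n) = Fintype.card (U × Fin k) := by
    rw [Fintype.card_fin, Fintype.card_prod, Fintype.card_fin, hn]
  let e : Fin n ≃ U × Fin k := Fintype.equivOfCardEq hcard
  refine ⟨blow (fun u w => ¬ P.R u w = true) (fun u w h h' => h (P.symm _ _ h')) e, ?_⟩
  have h := lam_le_open (fun u w => ¬ P.R u w = true) (fun u w h h' => h (P.symm _ _ h'))
    (fun u h => h (P.refl u)) hk hm1 e P.L P.inj c ?_ (by rw [Fintype.card_fin]; exact hm)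
  · rwa [Fintype.card_fin] at h
  · intro a
    have e1 : ∀ u, ∑ w, (if ¬ P.R u w = true then P.L a u * P.L a w else 0) =
        P.L a u * (0 - c * P.L a u) := by
      intro u
      have h1 : ∀ w, (if ¬ P.R u w = true then P.L a u * P.L a w else 0) =
          P.L a u * (P.L a w - (if P.R u w then P.L a w else 0)) := by
        intro w
        by_cases h : P.R u w = true
        · rw [if_neg (not_not.2 h), if_pos h]; ring
        · rw [if_pos h, if_neg h]; ring
      simp_rw [h1]
      rw [← Finset.mul_sum, Finset.sum_sub_distrib, P.eig, P.sum_zero]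
    simp_rw [e1]
    rw [Finset.mul_sum]
    refine le_of_eq (Finset.sum_congr rfl fun u _ => ?_)
    ring

/-- a pattern given by integer data -/
def Pattern.ofInt (R : U → U → Bool) (M : Fin m → U → ℤ) (c d : ℤ)
    (symm : ∀ u w, R u w = true → R w u = true) (refl : ∀ u, R u u = true)
    (hinj : ∀ a : Fin m → ℝ, (∀ u, ∑ t, a t * (M t u : ℝ) = 0) → a = 0)
    (hsum : ∀ t, ∑ u, M t u = 0)
    (heig : ∀ t u, ∑ w, (if R u w = true then M t w else 0) = c * M t u)
    (hdeg : ∀ u, ∑ w, (if R u w = true then (1 : ℤ) else 0) = d) (hcd : c ≤ d) :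
    Pattern U m (c : ℝ) (d : ℝ) where
  R := R
  symm := symm
  refl := refl
  L :=
    { toFun := fun a u => ∑ t, a t * (M t u : ℝ)
      map_add' := by
        intro a b
        funext u
        simp only [Pi.add_apply, add_mul, Finset.sum_add_distrib]
      map_smul' := by
        intro r a
        funext u
        simp only [Pi.smul_apply, smul_eq_mul, RingHom.id_apply, Finset.mul_sum, mul_assoc] }
  inj := by
    rw [injective_iff_map_eq_zero]
    intro a ha
    exact hinj a fun u => congrFun ha u
  sum_zero a := by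
    change ∑ u, ∑ t, a t * (M t u : ℝ) = 0
    rw [Finset.sum_comm]
    refine Finset.sum_eq_zero fun t _ => ?_
    rw [← Finset.mul_sum]
    have : (∑ u, (M t u : ℝ)) = ((∑ u, M t u : ℤ) : ℝ) := by push_cast; rfl
    rw [this, hsum, Int.cast_zero, mul_zero]
  eig a u := by
    change ∑ w, (if R u w = true then ∑ t, a t * (M t w : ℝ) else 0) =
      (c : ℝ) * ∑ t, a t * (M t u : ℝ)
    have h1 : ∀ w, (if R u w = true then ∑ t, a t * (M t w : ℝ) else 0) =
        ∑ t, a t * (((if R u w = true then M t w else 0 : ℤ)) : ℝ) := by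
      intro w
      by_cases h : R u w = true <;> simp [h]
    simp_rw [h1]
    rw [Finset.sum_comm, Finset.mul_sum]
    refine Finset.sum_congr rfl fun t _ => ?_
    rw [← Finset.mul_sum]
    have h2 : (∑ w, (((if R u w = true then M t w else 0 : ℤ)) : ℝ)) =
        ((∑ w, (if R u w = true then M t w else 0) : ℤ) : ℝ) := by
      rw [Int.cast_sum]
    rw [h2, heig]
    push_cast
    ring
  deg u := by
    have h2 : (∑ w, (if R u w = true then (1 : ℝ) else 0)) =
        ((∑ w, (if R u w = true then (1 : ℤ) else 0) : ℤ) : ℝ) := by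
      rw [Int.cast_sum]
      refine Finset.sum_congr rfl fun w _ => ?_
      by_cases h : R u w = true <;> simp [h]
    rw [h2, hdeg]
  c_le := by exact_mod_cast hcd

/-- the pattern of three disjoint cliques -/
def threeCliques : Pattern (Fin 3) 2 1 1 where
  R u w := decide (u = w)
  symm u w h := by
    rw [decide_eq_true_eq] at h ⊢
    exact h.symm
  refl u := by rw [decide_eq_true_eq]
  L :=
    { toFun := fun a => ![a 0, a 1, -(a 0 + a 1)]
      map_add' := by
        intro a b
        funext u
        fin_cases u <;> (simp; try ring)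
      map_smul' := by
        intro r a
        funext u
        fin_cases u <;> (simp; try ring) }
  inj := by
    intro a b h
    have h0 := congrFun h 0
    have h1 := congrFun h 1
    funext t
    fin_cases t
    · simpa using h0
    · simpa using h1
  sum_zero a := by
    rw [Fin.sum_univ_three]
    simp
  eig a u := by
    simp only [decide_eq_true_eq]
    rw [Finset.sum_ite_eq, if_pos (Finset.mem_univ u), one_mul]
  deg u := by
    simp only [decide_eq_true_eq]
    rw [Finset.sum_ite_eq, if_pos (Finset.mem_univ u)]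
  c_le := le_rfl

end Pool.Agent.Lib.MP_b9b22b_co
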