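import Pool.Agent.Lib.MP_b9b22b_co.Pattern

/-!
Three extremal patterns: the icosahedron, the line graph of the complete graph on eight vertices,
and a regular graph in the switching class of the two-graph on 276 points.
-/

set_option autoImplicit false

namespace Pool.Agent.Lib.MP_b9b22b_co

open Finset Matrix

/-! ### The line graph of the complete graph on eight vertices -/

def t8a : Fin 28 → Fin 8 := ![0,0,0,0,0,0,0,1,1,1,1,1,1,2,2,2,2,2,3,3,3,3,4,4,4,5,5,6]
def t8b : Fin 28 → Fin 8 := ![1,2,3,4,5,6,7,2,3,4,5,6,7,3,4,5,6,7,4,5,6,7,5,6,7,6,7,7]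

def t8R (u w : Fin 28) : Bool :=
  decide (t8a u = t8a w) || decide (t8a u = t8b w) || decide (t8b u = t8a w) || decide (t8b u = t8b w)

def t8M (t : Fin 7) (u : Fin 28) : ℤ :=
  (if t.castSucc = t8a u then 1 else 0) + (if t8b u = 7 then -1 else if t.castSucc = t8b u then 1 else 0)

def t8 : Pattern (Fin 28) 7 ((5 : ℤ) : ℝ) ((13 : ℤ) : ℝ) :=
  Pattern.ofInt t8R t8M 5 13 (by decide +kernel) (by decide +kernel)
    (by
      intro a ha
      have e : ∀ u t, t8M t u = ((if t.castSucc = t8a u then 1 else 0) +
        (if t8b u = 7 then -1 else if t.castSucc = t8b u then 1 else 0) : ℤ) := fun _ _ => rfl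
      have h01 := ha 0
      have h02 := ha 1
      have h03 := ha 2
      have h04 := ha 3
      have h05 := ha 4
      have h06 := ha 5
      have h12 := ha 7
      have v : ∀ t u, t8M t u = t8M t u := fun _ _ => rfl
      have k0 : ∀ t, t8M t 0 = ![1,1,0,0,0,0,0] t := by decide
      have k1 : ∀ t, t8M t 1 = ![1,0,1,0,0,0,0] t := by decide
      have k2 : ∀ t, t8M t 2 = ![1,0,0,1,0,0,0] t := by decide
      have k3 : ∀ t, t8M t 3 = ![1,0,0,0,1,0,0] t := by decide
      have k4 : ∀ t, t8M t 4 = ![1,0,0,0,0,1,0] t := by decide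
      have k5 : ∀ t, t8M t 5 = ![1,0,0,0,0,0,1] t := by decide
      have k7 : ∀ t, t8M t 7 = ![0,1,1,0,0,0,0] t := by decide
      simp only [k0, k1, k2, k3, k4, k5, k7, Fin.sum_univ_seven] at h01 h02 h03 h04 h05 h06 h12
      simp at h01 h02 h03 h04 h05 h06 h12
      funext t
      fin_cases t <;> simp <;> linarith)
    (by decide +kernel) (by decide +kernel) (by decide +kernel) (by norm_num)

/-! ### The two-graph on 276 points -/

/-- base blocks (bit masks) of the Steiner system `S(4,7,23)` under the cyclic group of order 23,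
and the mask of a single point -/
def gMask : Fin 12 → ℕ := ![2787, 13481, 18493, 45333, 52609, 82757, 99367, 138259, 139865,
  207137, 332337, 1]

/-- signs -/
def gSgn : Fin 12 → ℤ := ![1, 1, 1, 1, 1, 1, 1, -1, -1, -1, -1, 1]

/-- weights -/
def gWt : Fin 12 → ℤ := ![4, 4, 4, 4, 4, 4, 4, 4, 4, 4, 4, 8]

def gM (o : Fin 12) (t : ZMod 23) : ℤ :=
  gSgn o * (-1 + (if (gMask o).testBit t.val then gWt o else 0))

/-- adjacency table (bit masks) -/
def gTab : Fin 12 → Fin 12 → ℕ := ![
  ![7209079, 8325207, 3932927, 8096426, 8380931, 7717547, 5006323, 2213660, 4552464, 5261116, 6465304, 2787],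
  ![6951167, 3482797, 6821807, 7646507, 8237101, 8017082, 3423661, 3327408, 2480420, 2181978, 5352020, 13481],
  ![8339517, 7727127, 7363087, 6880271, 2095129, 4086317, 6569503, 3937248, 373464, 4792758, 1225050, 18493],
  ![5591518, 5551407, 7356183, 2669845, 3387703, 6990549, 7388557, 5703392, 1288362, 2304618, 2315366, 45333],
  ![4212735, 3411391, 1581049, 7114189, 5865883, 6472679, 6612961, 496422, 5091849, 604978, 1258259, 52609],
  ![5587887, 6105694, 3431037, 2839895, 6800199, 2343877, 6415315, 462475, 2534034, 4861108, 4625738, 82757],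
  ![5228083, 3521581, 7896103, 3259663, 517927, 4966279, 4515619, 1968012, 418617, 2908762, 4612892, 99367],
  ![3728260, 893772, 510012, 483562, 6605280, 5337313, 3268728, 4406467, 3558867, 5184723, 5151203, 8250348],
  ![585378, 2399140, 1789344, 5576136, 1068467, 4805988, 1885793, 4960877, 1730137, 2995795, 5663539, 8248742],
  ![3990026, 5952132, 7177362, 5657796, 5037200, 2962514, 5916212, 4929779, 4877749, 1481065, 5061043, 8181470],
  ![1631558, 2774410, 5934408, 6695620, 4771017, 5417314, 3720802, 4692339, 5035627, 5086387, 875185, 8056270],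
  ![4673537, 1387521, 3936769, 2657537, 111361, 2278017, 6562177, 3655614, 6667198, 8088382, 7583582, 8388607]]

def gRel (o o' : Fin 12) (r : ZMod 23) : Bool := (gTab o o').testBit r.val

theorem gRel_symm : ∀ o o' : Fin 12, ∀ r : ZMod 23, gRel o o' r = true → gRel o' o (-r) = true := by
  decide +kernel

theorem gRel_refl : ∀ o : Fin 12, gRel o o 0 = true := by
  decide +kernel

theorem gM_sum : (∑ o, ∑ r : ZMod 23, gM o r) = 0 := by
  decide +kernel

theorem gRel_deg : ∀ o : Fin 12, (∑ o' : Fin 12, ∑ r : ZMod 23, if gRel o o' r = true then (1 : ℤ) else 0) = 136 := by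
  decide +kernel

theorem gRel_eig : ∀ o : Fin 12, ∀ t : ZMod 23,
    (∑ o' : Fin 12, ∑ r : ZMod 23, if gRel o o' r = true then gM o' (t - r) else 0) = 28 * gM o t := by
  decide +kernel

def gR (u w : Fin 12 × ZMod 23) : Bool := gRel u.1 w.1 (w.2 - u.2)

def gMat (t : Fin 23) (u : Fin 12 × ZMod 23) : ℤ := gM u.1 (((t : ℕ) : ZMod 23) - u.2)

theorem sum_shift (g : Fin 12 → ZMod 23 → ℤ) (s : ZMod 23) :
    ∑ w : Fin 12 × ZMod 23, g w.1 (w.2 - s) = ∑ o, ∑ r, g o r := by
  rw [Fintype.sum_prod_type]
  refine Finset.sum_congr rfl fun o _ => ?_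
  exact Equiv.sum_comp (Equiv.subRight s) (fun r => g o r)

theorem cast_sub_eq_zero : ∀ t s : Fin 23, (((t : ℕ) : ZMod 23) - ((s : ℕ) : ZMod 23) = 0) ↔ t = s := by
  decide +kernel

theorem gM_point (t s : Fin 23) : gMat t (11, ((s : ℕ) : ZMod 23)) = -1 + (if t = s then 8 else 0) := by
  revert t s
  decide +kernel

/-- the pattern with 276 vertices -/
def g276 : Pattern (Fin 12 × ZMod 23) 23 ((28 : ℤ) : ℝ) ((136 : ℤ) : ℝ) :=
  Pattern.ofInt gR gMat 28 136
    (by
      intro u w h
      have := gRel_symm _ _ _ h
      rwa [neg_sub] at this)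
    (by
      intro u
      unfold gR
      rw [sub_self]
      exact gRel_refl u.1)
    (by
      intro a ha
      have h1 : ∀ s : Fin 23, 8 * a s = ∑ t, a t := by
        intro s
        have h2 := ha (11, ((s : ℕ) : ZMod 23))
        simp_rw [gM_point] at h2
        have h3 : ∀ t : Fin 23, a t * (((-1 + (if t = s then 8 else 0) : ℤ)) : ℝ) =
            -a t + (if t = s then 8 * a s else 0) := by
          intro t
          by_cases h : t = s
          · subst h; simp; ring
          · simp [h]
        simp_rw [h3] at h2
        rw [Finset.sum_add_distrib, Finset.sum_neg_distrib, Finset.sum_ite_eq',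
          if_pos (Finset.mem_univ s)] at h2
        linarith
      have h4 : ∑ s : Fin 23, 8 * a s = ∑ _s : Fin 23, ∑ t, a t := Finset.sum_congr rfl fun s _ => h1 s
      rw [← Finset.mul_sum, Finset.sum_const, Finset.card_univ, Fintype.card_fin, nsmul_eq_mul] at h4
      have h5 : ∑ t, a t = 0 := by
        push_cast at h4
        linarith
      funext s
      have := h1 s
      rw [h5] at this
      simp at this
      simpa using this)
    (by
      intro t
      unfold gMat
      have h := sum_shift (fun o r => gM o (-r)) (((t : ℕ) : ZMod 23))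
      simp only [neg_sub] at h
      rw [h]
      have h2 : ∀ o, ∑ r : ZMod 23, gM o (-r) = ∑ r, gM o r := fun o =>
        Equiv.sum_comp (Equiv.neg (ZMod 23)) (fun r => gM o r)
      simp_rw [h2]
      exact gM_sum)
    (by
      intro t u
      unfold gR gMat
      have h := sum_shift (fun o r => if gRel u.1 o r = true then
        gM o ((((t : ℕ) : ZMod 23) - u.2) - r) else 0) u.2
      have h2 : ∀ w : Fin 12 × ZMod 23, (((t : ℕ) : ZMod 23) - u.2) - (w.2 - u.2) =
          ((t : ℕ) : ZMod 23) - w.2 := by
        intro w; ring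
      simp_rw [h2] at h
      rw [h]
      exact gRel_eig u.1 _)
    (by
      intro u
      unfold gR
      have h := sum_shift (fun o r => if gRel u.1 o r = true then (1 : ℤ) else 0) u.2
      rw [h]
      exact gRel_deg u.1)
    (by norm_num)

/-! ### The icosahedron -/

/-- golden ratio -/
noncomputable def phi : ℝ := (1 + √5) / 2

theorem phi_sq : phi ^ 2 = phi + 1 := by
  unfold phi
  have : √5 ^ 2 = 5 := Real.sq_sqrt (by norm_num)
  nlinarith

/-- adjacency (with loops) of the icosahedron; the vertex `(c, s, t)` has coordinates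
`0, ±1, ±φ` at the places `c, c + 1, c + 2` -/
def icoR (u w : Fin 3 × Bool × Bool) : Bool :=
  (decide (u.1 = w.1) && decide (u.2.2 = w.2.2)) ||
  (decide (w.1 = u.1 + 1) && decide (u.2.2 = w.2.1)) ||
  (decide (u.1 = w.1 + 1) && decide (w.2.2 = u.2.1))

noncomputable def sg (b : Bool) : ℝ := if b then 1 else -1

noncomputable def icoL (a : Fin 3 → ℝ) (u : Fin 3 × Bool × Bool) : ℝ :=
  sg u.2.1 * a (u.1 + 1) + sg u.2.2 * phi * a (u.1 + 2)

theorem sum_ico (g : Fin 3 × Bool × Bool → ℝ) :
    ∑ u, g u = ((g (0, true, true) + g (0, true, false)) + (g (0, false, true) + g (0, false, false)))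
      + ((g (1, true, true) + g (1, true, false)) + (g (1, false, true) + g (1, false, false)))
      + ((g (2, true, true) + g (2, true, false)) + (g (2, false, true) + g (2, false, false))) := by
  rw [Fintype.sum_prod_type, Fin.sum_univ_three]
  simp only [Fintype.sum_prod_type, Fintype.sum_bool]

noncomputable def ico : Pattern (Fin 3 × Bool × Bool) 3 (1 + √5) 6 where
  R := icoR
  symm := by decide
  refl := by decide
  L :=
    { toFun := icoL
      map_add' := by
        intro a b
        funext u
        simp only [icoL, Pi.add_apply]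
        ring
      map_smul' := by
        intro r a
        funext u
        simp only [icoL, Pi.smul_apply, smul_eq_mul, RingHom.id_apply]
        ring }
  inj := by
    rw [injective_iff_map_eq_zero]
    intro a ha
    have h : ∀ c : Fin 3, a (c + 1) = 0 := by
      intro c
      have h1 := congrFun ha (c, true, true)
      have h2 := congrFun ha (c, true, false)
      change sg true * a (c + 1) + sg true * phi * a (c + 2) = 0 at h1
      change sg true * a (c + 1) + sg false * phi * a (c + 2) = 0 at h2
      simp only [sg, if_true, Bool.false_eq_true, if_false] at h1 h2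
      linarith
    funext t
    have := h (t + 2)
    rw [(by decide : ∀ t : Fin 3, t + 2 + 1 = t) t] at this
    exact this
  sum_zero a := by
    change ∑ u, icoL a u = 0
    rw [sum_ico]
    simp only [icoL, sg, if_true, Bool.false_eq_true, if_false]
    ring
  eig a u := by
    change ∑ w, (if icoR u w = true then icoL a w else 0) = (1 + √5) * icoL a u
    have h5 : (1 : ℝ) + √5 = 2 * phi := by unfold phi; ring
    have hp := phi_sq
    rw [h5, sum_ico]
    obtain ⟨c, s, t⟩ := u
    fin_cases c <;> cases s <;> cases t <;>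
      simp [icoR, icoL, sg] <;>
      (first
        | linear_combination 0 * hp
        | linear_combination (2 * a 0) * hp
        | linear_combination (-2 * a 0) * hp
        | linear_combination (2 * a 1) * hp
        | linear_combination (-2 * a 1) * hp
        | linear_combination (2 * a 2) * hp
        | linear_combination (-2 * a 2) * hp)
  deg u := by
    rw [sum_ico]
    obtain ⟨c, s, t⟩ := u
    fin_cases c <;> cases s <;> cases t <;>
      simp [icoR] <;> norm_num
  c_le := by
    have : √5 ≤ 5 := by
      rw [Real.sqrt_le_left (by norm_num)]; norm_num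
    linarith

end Pool.Agent.Lib.MP_b9b22b_co
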