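import Mathlib

/-!
The spherical inequality: for finitely many vectors in balanced position in `ℝ^m` the sum of the
absolute values of all inner products is at most `κ_m` times the square of the sum of the norms.
-/

set_option autoImplicit false

namespace Pool.Agent.Lib.MP_b9b22b_co

open Finset

/-- the constant `κ_m` -/
noncomputable def kap (m : ℕ) : ℝ :=
  2 / ((m : ℝ) * (m + 1)) * (1 + ((m : ℝ) - 1) / 2 * √((m : ℝ) + 2))

theorem scalar_ineq {τ c : ℝ} (hτ : 0 < τ) (hc0 : 0 ≤ c) (hc1 : c ≤ 1) :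
    c ≤ τ * (1 + 2 * τ) / (2 * (1 + τ) ^ 2) + (1 + 2 * τ + 3 * τ ^ 2) / (2 * τ * (1 + τ) ^ 2) * c ^ 2
      - 1 / (2 * τ * (1 + τ) ^ 2) * c ^ 4 := by
  have h : τ * (1 + 2 * τ) / (2 * (1 + τ) ^ 2)
      + (1 + 2 * τ + 3 * τ ^ 2) / (2 * τ * (1 + τ) ^ 2) * c ^ 2
      - 1 / (2 * τ * (1 + τ) ^ 2) * c ^ 4 - c
      = 1 / (2 * τ * (1 + τ) ^ 2) * ((c - τ) ^ 2 * ((1 - c) * (c + 1 + 2 * τ))) := by
    field_simp
    ring
  have h2 : 0 ≤ 1 / (2 * τ * (1 + τ) ^ 2) * ((c - τ) ^ 2 * ((1 - c) * (c + 1 + 2 * τ))) := by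
    have : 0 ≤ 1 - c := by linarith
    positivity
  linarith

theorem scaled_ineq {τ p q : ℝ} (hτ : 0 < τ) (hp : 0 ≤ p) (hq : |q| ≤ p) :
    |q| ≤ τ * (1 + 2 * τ) / (2 * (1 + τ) ^ 2) * p
      + (1 + 2 * τ + 3 * τ ^ 2) / (2 * τ * (1 + τ) ^ 2) * (q ^ 2 / p)
      - 1 / (2 * τ * (1 + τ) ^ 2) * (q ^ 4 / p ^ 3) := by
  rcases hp.eq_or_lt with h0 | h0
  · subst h0
    have : q = 0 := by
      have := abs_nonneg q
      exact abs_eq_zero.1 (le_antisymm hq this)
    subst this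
    simp
  · have h := scalar_ineq hτ (c := |q| / p) (by positivity) (by rw [div_le_one h0]; exact hq)
    have h2 := mul_le_mul_of_nonneg_right h h0.le
    have e1 : |q| / p * p = |q| := by field_simp
    have e2 : (|q| / p) ^ 2 = q ^ 2 / p ^ 2 := by rw [div_pow, sq_abs]
    have e4 : (|q| / p) ^ 4 = q ^ 4 / p ^ 4 := by
      rw [div_pow]
      congr 1
      exact (by rw [show (4 : ℕ) = 2 * 2 from rfl, pow_mul, pow_mul, sq_abs])
    rw [e1, e2, e4] at h2
    refine h2.trans (le_of_eq ?_)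
    field_simp

theorem const_eq {m : ℕ} (hm : 1 ≤ m) {τ : ℝ} (hτ : τ = 1 / √((m : ℝ) + 2)) :
    τ * (1 + 2 * τ) / (2 * (1 + τ) ^ 2)
      + (1 + 2 * τ + 3 * τ ^ 2) / (2 * τ * (1 + τ) ^ 2) * (1 / m)
      - 1 / (2 * τ * (1 + τ) ^ 2) * (3 / ((m : ℝ) * (m + 2))) = kap m := by
  have hm' : (1 : ℝ) ≤ m := by exact_mod_cast hm
  set s := √((m : ℝ) + 2) with hs
  have hs0 : 0 < s := Real.sqrt_pos.2 (by linarith)
  have hs2 : s ^ 2 = (m : ℝ) + 2 := Real.sq_sqrt (by linarith)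
  have hms : (m : ℝ) = s ^ 2 - 2 := by linarith
  have h1 : 0 < s ^ 2 - 2 := by linarith
  have h2 : s ^ 2 - 2 + 1 ≠ 0 := by linarith
  have h3 : s ^ 2 - 2 ≠ 0 := h1.ne'
  unfold kap
  rw [← hs, hτ, hms]
  have h4 : 1 + 1 / s ≠ 0 := by positivity
  have h5 : s + 1 ≠ 0 := by positivity
  have h6 : s ^ 2 - 1 ≠ 0 := by
    intro h; apply h2; linarith
  have h7 : s ^ 2 - 2 + 2 ≠ 0 := by
    have : 0 < s ^ 2 := by positivity
    linarith
  field_simp
  ring

/-- Gram expansion -/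
theorem sum_sq_gram {ι κ : Type*} [Fintype ι] [Fintype κ] (w : ι → κ → ℝ) (s : ι → ℝ) :
    ∑ x, ∑ y, s x * s y * (∑ a, w x a * w y a) ^ 2 =
      ∑ a, ∑ b, (∑ x, s x * (w x a * w x b)) ^ 2 := by
  have h1 : ∀ x y, s x * s y * (∑ a, w x a * w y a) ^ 2 =
      ∑ a, ∑ b, (s x * (w x a * w x b)) * (s y * (w y a * w y b)) := by
    intro x y
    rw [sq, Finset.sum_mul_sum, Finset.mul_sum]
    refine Finset.sum_congr rfl fun a _ => ?_
    rw [Finset.mul_sum]
    refine Finset.sum_congr rfl fun b _ => ?_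
    ring
  simp_rw [h1]
  have h2 : ∀ a b, (∑ x, s x * (w x a * w x b)) ^ 2 =
      ∑ x, ∑ y, (s x * (w x a * w x b)) * (s y * (w y a * w y b)) := by
    intro a b
    rw [sq, Finset.sum_mul_sum]
  simp_rw [h2]
  calc ∑ x, ∑ y, ∑ a, ∑ b, (s x * (w x a * w x b)) * (s y * (w y a * w y b))
      = ∑ x, ∑ a, ∑ y, ∑ b, (s x * (w x a * w x b)) * (s y * (w y a * w y b)) := by
        refine Finset.sum_congr rfl fun x _ => ?_
        rw [Finset.sum_comm]
    _ = ∑ a, ∑ x, ∑ y, ∑ b, (s x * (w x a * w x b)) * (s y * (w y a * w y b)) := by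
        rw [Finset.sum_comm]
    _ = ∑ a, ∑ x, ∑ b, ∑ y, (s x * (w x a * w x b)) * (s y * (w y a * w y b)) := by
        refine Finset.sum_congr rfl fun a _ => Finset.sum_congr rfl fun x _ => ?_
        rw [Finset.sum_comm]
    _ = ∑ a, ∑ b, ∑ x, ∑ y, (s x * (w x a * w x b)) * (s y * (w y a * w y b)) := by
        refine Finset.sum_congr rfl fun a _ => ?_
        rw [Finset.sum_comm]

/-- the symmetric tensor `δ_ij δ_kl + δ_ik δ_jl + δ_il δ_jk` -/
def dl {m : ℕ} (i j k l : Fin m) : ℝ :=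
  (if i = j then 1 else 0) * (if k = l then 1 else 0) +
  (if i = k then 1 else 0) * (if j = l then 1 else 0) +
  (if i = l then 1 else 0) * (if j = k then 1 else 0)

theorem sum_dl_mul {m : ℕ} (T : Fin m → Fin m → Fin m → Fin m → ℝ) :
    ∑ i, ∑ j, ∑ k, ∑ l, T i j k l * dl i j k l =
      (∑ i, ∑ k, T i i k k) + (∑ i, ∑ j, T i j i j) + (∑ i, ∑ j, T i j j i) := by
  unfold dl
  simp only [mul_add, Finset.sum_add_distrib]
  congr 1
  · congr 1
    · refine Finset.sum_congr rfl fun i _ => ?_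
      rw [Finset.sum_eq_single i]
      · refine Finset.sum_congr rfl fun k _ => ?_
        rw [Finset.sum_eq_single k]
        · simp
        · intro l _ hl; simp [Ne.symm hl]
        · simp
      · intro j _ hj
        simp [Ne.symm hj]
      · simp
    · refine Finset.sum_congr rfl fun i _ => Finset.sum_congr rfl fun j _ => ?_
      rw [Finset.sum_eq_single i]
      · rw [Finset.sum_eq_single j]
        · simp
        · intro l _ hl; simp [Ne.symm hl]
        · simp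
      · intro k _ hk
        simp [Ne.symm hk]
      · simp
  · refine Finset.sum_congr rfl fun i _ => Finset.sum_congr rfl fun j _ => ?_
    rw [Finset.sum_eq_single j]
    · rw [Finset.sum_eq_single i]
      · simp
      · intro l _ hl; simp [Ne.symm hl]
      · simp
    · intro k _ hk
      simp [Ne.symm hk]
    · simp

theorem sum_dl_sq {m : ℕ} :
    ∑ i : Fin m, ∑ j, ∑ k, ∑ l, dl i j k l * dl i j k l = 3 * (m : ℝ) * (m + 2) := by
  rw [sum_dl_mul]
  have e1 : ∀ i k : Fin m, dl i i k k = 1 + (if i = k then 2 else 0) := by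
    intro i k
    unfold dl
    by_cases h : i = k <;> simp [h]
    ring
  have e2 : ∀ i j : Fin m, dl i j i j = 1 + (if i = j then 2 else 0) := by
    intro i j
    unfold dl
    by_cases h : i = j
    · simp [h]; ring
    · simp [h, Ne.symm h]
  have e3 : ∀ i j : Fin m, dl i j j i = 1 + (if i = j then 2 else 0) := by
    intro i j
    unfold dl
    by_cases h : i = j
    · simp [h]; ring
    · simp [h, Ne.symm h]
  simp only [e1, e2, e3, Finset.sum_add_distrib, Finset.sum_const, Finset.card_univ,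
    Fintype.card_fin, Finset.sum_ite_eq, Finset.mem_univ, if_true, nsmul_eq_mul]
  ring

/-- lower bound for the fourth moment -/
theorem tensor_lower {m : ℕ} (hm : 1 ≤ m) (T : Fin m → Fin m → Fin m → Fin m → ℝ) (R : ℝ)
    (h1 : ∑ i, ∑ k, T i i k k = R) (h2 : ∑ i, ∑ j, T i j i j = R) (h3 : ∑ i, ∑ j, T i j j i = R) :
    3 * R ^ 2 / ((m : ℝ) * (m + 2)) ≤ ∑ i, ∑ j, ∑ k, ∑ l, T i j k l ^ 2 := by
  have hm' : (1 : ℝ) ≤ m := by exact_mod_cast hm
  set α : ℝ := R / ((m : ℝ) * (m + 2)) with hα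
  have h0 : 0 ≤ ∑ i, ∑ j, ∑ k, ∑ l, (T i j k l - α * dl i j k l) ^ 2 :=
    Finset.sum_nonneg fun i _ => Finset.sum_nonneg fun j _ => Finset.sum_nonneg fun k _ =>
      Finset.sum_nonneg fun l _ => sq_nonneg _
  have h4 : ∑ i, ∑ j, ∑ k, ∑ l, (T i j k l - α * dl i j k l) ^ 2 =
      ∑ i, ∑ j, ∑ k, ∑ l, T i j k l ^ 2 - 2 * α * ∑ i, ∑ j, ∑ k, ∑ l, T i j k l * dl i j k l
        + α ^ 2 * ∑ i : Fin m, ∑ j : Fin m, ∑ k : Fin m, ∑ l : Fin m,
          dl i j k l * dl i j k l := by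
    simp only [Finset.mul_sum, ← Finset.sum_sub_distrib, ← Finset.sum_add_distrib]
    refine Finset.sum_congr rfl fun i _ => Finset.sum_congr rfl fun j _ =>
      Finset.sum_congr rfl fun k _ => Finset.sum_congr rfl fun l _ => ?_
    ring
  rw [h4, sum_dl_mul, sum_dl_sq, h1, h2, h3] at h0
  have h5 : 3 * R ^ 2 / ((m : ℝ) * (m + 2)) = 2 * α * (R + R + R) - α ^ 2 * (3 * (m : ℝ) * (m + 2)) := by
    rw [hα]
    have : (m : ℝ) ≠ 0 := by positivity
    field_simp
    ring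
  rw [h5]
  linarith

/-- The spherical inequality for vectors in balanced position. -/
theorem sphere_ineq {ι : Type*} [Fintype ι] {m : ℕ} (hm : 1 ≤ m) (v : ι → Fin m → ℝ)
    (r : ι → ℝ) (hr : ∀ x, 0 ≤ r x) (hrv : ∀ x, r x ^ 2 = ∑ i, v x i ^ 2) (R : ℝ)
    (hR : ∑ x, r x = R)
    (hN : ∀ i j, ∑ x, v x i * v x j / r x = if i = j then R / m else 0) :
    ∑ x, ∑ y, |∑ i, v x i * v y i| ≤ kap m * R ^ 2 := by
  have hm' : (1 : ℝ) ≤ m := by exact_mod_cast hm
  have hm0 : (m : ℝ) ≠ 0 := by positivity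
  set τ : ℝ := 1 / √((m : ℝ) + 2) with hτ
  have hτ0 : 0 < τ := by positivity
  set a : ℝ := τ * (1 + 2 * τ) / (2 * (1 + τ) ^ 2) with ha
  set b : ℝ := (1 + 2 * τ + 3 * τ ^ 2) / (2 * τ * (1 + τ) ^ 2) with hb
  set d : ℝ := 1 / (2 * τ * (1 + τ) ^ 2) with hd
  have hd0 : 0 ≤ d := by positivity
  have hCS : ∀ x y, |∑ i, v x i * v y i| ≤ r x * r y := by
    intro x y
    have h := Finset.sum_mul_sq_le_sq_mul_sq Finset.univ (v x) (v y)
    rw [← hrv x, ← hrv y, ← mul_pow] at h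
    exact abs_le_of_sq_le_sq h (mul_nonneg (hr x) (hr y))
  have hterm : ∀ x y, |∑ i, v x i * v y i| ≤ a * (r x * r y)
      + b * ((∑ i, v x i * v y i) ^ 2 / (r x * r y))
      - d * ((∑ i, v x i * v y i) ^ 4 / (r x * r y) ^ 3) := fun x y =>
    scaled_ineq hτ0 (mul_nonneg (hr x) (hr y)) (hCS x y)
  have hsum : ∑ x, ∑ y, |∑ i, v x i * v y i| ≤ a * ∑ x, ∑ y, (r x * r y)
      + b * ∑ x, ∑ y, ((∑ i, v x i * v y i) ^ 2 / (r x * r y))
      - d * ∑ x, ∑ y, ((∑ i, v x i * v y i) ^ 4 / (r x * r y) ^ 3) := by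
    simp only [Finset.mul_sum, ← Finset.sum_sub_distrib, ← Finset.sum_add_distrib]
    exact Finset.sum_le_sum fun x _ => Finset.sum_le_sum fun y _ => hterm x y
  -- first sum
  have hS1 : ∑ x, ∑ y, (r x * r y) = R ^ 2 := by
    rw [← Finset.sum_mul_sum, hR, sq]
  -- second sum
  have hS2 : ∑ x, ∑ y, ((∑ i, v x i * v y i) ^ 2 / (r x * r y)) = R ^ 2 / m := by
    have h := sum_sq_gram v (fun x => (r x)⁻¹)
    have h1 : ∀ x y, ((∑ i, v x i * v y i) ^ 2 / (r x * r y)) =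
        (r x)⁻¹ * (r y)⁻¹ * (∑ i, v x i * v y i) ^ 2 := by
      intro x y
      rw [div_eq_mul_inv, mul_inv]; ring
    simp_rw [h1]
    rw [h]
    have h2 : ∀ i j, ∑ x, (r x)⁻¹ * (v x i * v x j) = if i = j then R / m else 0 := by
      intro i j
      rw [← hN i j]
      refine Finset.sum_congr rfl fun x _ => ?_
      rw [div_eq_mul_inv]; ring
    simp_rw [h2]
    have h3 : ∀ i j : Fin m, ((if i = j then R / m else 0 : ℝ)) ^ 2 =
        if i = j then (R / m) ^ 2 else 0 := by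
      intro i j; split_ifs <;> simp
    simp_rw [h3]
    simp only [Finset.sum_ite_eq, Finset.mem_univ, if_true, Finset.sum_const, Finset.card_univ,
      Fintype.card_fin, nsmul_eq_mul]
    field_simp
  -- third sum
  have hS3 : 3 * R ^ 2 / ((m : ℝ) * (m + 2)) ≤
      ∑ x, ∑ y, ((∑ i, v x i * v y i) ^ 4 / (r x * r y) ^ 3) := by
    have h := sum_sq_gram (κ := Fin m × Fin m) (fun x p => v x p.1 * v x p.2)
      (fun x => ((r x)⁻¹) ^ 3)
    have h1 : ∀ x y, ((∑ i, v x i * v y i) ^ 4 / (r x * r y) ^ 3) =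
        ((r x)⁻¹) ^ 3 * ((r y)⁻¹) ^ 3 *
          (∑ p : Fin m × Fin m, v x p.1 * v x p.2 * (v y p.1 * v y p.2)) ^ 2 := by
      intro x y
      have e : ∑ p : Fin m × Fin m, v x p.1 * v x p.2 * (v y p.1 * v y p.2) =
          (∑ i, v x i * v y i) ^ 2 := by
        rw [sq, Finset.sum_mul_sum, Fintype.sum_prod_type]
        refine Finset.sum_congr rfl fun i _ => Finset.sum_congr rfl fun j _ => ?_
        ring
      rw [e, div_eq_mul_inv, mul_pow, mul_inv, inv_pow, inv_pow]; ring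
    simp_rw [h1]
    rw [h]
    rw [Fintype.sum_prod_type]
    simp_rw [Fintype.sum_prod_type]
    apply tensor_lower hm (fun i j k l => ∑ x, ((r x)⁻¹) ^ 3 * (v x i * v x j * (v x k * v x l)))
    all_goals
      rw [← hR]
    · have : ∀ i k : Fin m, ∑ x, ((r x)⁻¹) ^ 3 * (v x i * v x i * (v x k * v x k)) =
          ∑ x, ((r x)⁻¹) ^ 3 * (v x i ^ 2 * v x k ^ 2) := fun i k =>
        Finset.sum_congr rfl fun x _ => by ring
      simp_rw [this]
      simp_rw [Finset.sum_comm (s := (Finset.univ : Finset (Fin m))) (t := (Finset.univ : Finset ι))]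
      refine Finset.sum_congr rfl fun x _ => ?_
      simp_rw [← Finset.mul_sum]
      rw [← Finset.sum_mul, ← hrv x]
      rcases (hr x).eq_or_lt with h0 | h0
      · rw [← h0]; simp
      · field_simp
    · have : ∀ i j : Fin m, ∑ x, ((r x)⁻¹) ^ 3 * (v x i * v x j * (v x i * v x j)) =
          ∑ x, ((r x)⁻¹) ^ 3 * (v x i ^ 2 * v x j ^ 2) := fun i k =>
        Finset.sum_congr rfl fun x _ => by ring
      simp_rw [this]
      simp_rw [Finset.sum_comm (s := (Finset.univ : Finset (Fin m))) (t := (Finset.univ : Finset ι))]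
      refine Finset.sum_congr rfl fun x _ => ?_
      simp_rw [← Finset.mul_sum]
      rw [← Finset.sum_mul, ← hrv x]
      rcases (hr x).eq_or_lt with h0 | h0
      · rw [← h0]; simp
      · field_simp
    · have : ∀ i j : Fin m, ∑ x, ((r x)⁻¹) ^ 3 * (v x i * v x j * (v x j * v x i)) =
          ∑ x, ((r x)⁻¹) ^ 3 * (v x i ^ 2 * v x j ^ 2) := fun i k =>
        Finset.sum_congr rfl fun x _ => by ring
      simp_rw [this]
      simp_rw [Finset.sum_comm (s := (Finset.univ : Finset (Fin m))) (t := (Finset.univ : Finset ι))]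
      refine Finset.sum_congr rfl fun x _ => ?_
      simp_rw [← Finset.mul_sum]
      rw [← Finset.sum_mul, ← hrv x]
      rcases (hr x).eq_or_lt with h0 | h0
      · rw [← h0]; simp
      · field_simp
  rw [hS1, hS2] at hsum
  have hfin := mul_le_mul_of_nonneg_left hS3 hd0
  have hk := const_eq hm hτ
  rw [← ha, ← hb, ← hd] at hk
  calc ∑ x, ∑ y, |∑ i, v x i * v y i|
      ≤ a * R ^ 2 + b * (R ^ 2 / m) - d * (3 * R ^ 2 / ((m : ℝ) * (m + 2))) := by linarith
    _ = (a + b * (1 / m) - d * (3 / ((m : ℝ) * (m + 2)))) * R ^ 2 := by ring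
    _ = kap m * R ^ 2 := by rw [hk]

end Pool.Agent.Lib.MP_b9b22b_co
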